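import Mathlib

set_option autoImplicit false
open MeasureTheory Matrix Filter Topology

namespace Pool.Agent.Lib.Pbc76ba

section contraction
attribute [local instance] Matrix.linftyOpNormedRing Matrix.linftyOpNormedAlgebra

lemma norm_map_ofReal {d : ℕ} (M : Matrix (Fin d) (Fin d) ℝ) :
    ‖M.map (algebraMap ℝ ℂ)‖ = ‖M‖ := by
  rw [Matrix.linfty_opNorm_def, Matrix.linfty_opNorm_def]
  simp [Matrix.map_apply]

lemma norm_pow_tendsto {d : ℕ} [Nonempty (Fin d)] (M : Matrix (Fin d) (Fin d) ℂ)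
    (h : ∀ z ∈ spectrum ℂ M, ‖z‖ < 1) :
    Tendsto (fun n => ‖M ^ n‖) atTop (𝓝 0) := by
  have hne : (spectrum ℂ M).Nonempty := spectrum.nonempty M
  have h1 : spectralRadius ℂ M < (1 : NNReal) :=
    spectrum.spectralRadius_lt_of_forall_lt_of_nonempty hne (fun k hk => by
      have := h k hk
      exact_mod_cast this)
  obtain ⟨r, hr1, hr2⟩ := ENNReal.lt_iff_exists_nnreal_btwn.1 h1
  have h2 := spectrum.pow_nnnorm_pow_one_div_tendsto_nhds_spectralRadius M
  have h3 : ∀ᶠ n : ℕ in atTop, ((‖M ^ n‖₊ : ENNReal) ^ (1 / n : ℝ)) < r :=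
    h2.eventually (gt_mem_nhds hr1)
  have hr2' : (r : ℝ) < 1 := by exact_mod_cast hr2
  have h4 : ∀ᶠ n : ℕ in atTop, ‖M ^ n‖ ≤ (r : ℝ) ^ n := by
    filter_upwards [h3, eventually_gt_atTop 0] with n hn hn0
    have hn0' : (0 : ℝ) < n := by exact_mod_cast hn0
    have : ((‖M ^ n‖₊ : ENNReal) ^ (1 / n : ℝ)) ^ (n : ℝ) ≤ (r : ENNReal) ^ (n : ℝ) :=
      ENNReal.rpow_le_rpow hn.le hn0'.le
    rw [← ENNReal.rpow_mul, one_div, inv_mul_cancel₀ hn0'.ne', ENNReal.rpow_one,
      ENNReal.rpow_natCast] at this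
    exact_mod_cast this
  have h5 : Tendsto (fun n : ℕ => (r : ℝ) ^ n) atTop (𝓝 0) :=
    tendsto_pow_atTop_nhds_zero_of_lt_one r.2 hr2'
  exact squeeze_zero' (Eventually.of_forall fun n => norm_nonneg _) h4 h5

lemma isUnit_det_real {d : ℕ} (R : Matrix (Fin d) (Fin d) ℤ)
    (h : ∀ z : ℂ, (R.map (Int.castRingHom ℂ)).charpoly.IsRoot z → 1 < ‖z‖) :
    R.det ≠ 0 := by
  intro h0
  have h1 : (R.map (Int.castRingHom ℂ)).det = 0 := by
    have := (Int.castRingHom ℂ).map_det R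
    rw [h0, map_zero] at this
    exact this.symm
  have h2 : (0 : ℂ) ∈ spectrum ℂ (R.map (Int.castRingHom ℂ)) := by
    rw [spectrum.zero_mem_iff, Matrix.isUnit_iff_isUnit_det, h1]
    simp
  rw [Matrix.mem_spectrum_iff_isRoot_charpoly] at h2
  have := h 0 h2
  simp at this
  linarith

lemma contr_aux {d : ℕ} [Nonempty (Fin d)] (R : Matrix (Fin d) (Fin d) ℤ)
    (h : ∀ z : ℂ, (R.map (Int.castRingHom ℂ)).charpoly.IsRoot z → 1 < ‖z‖) :
    Tendsto (fun n => ‖((R.map (Int.castRingHom ℝ))⁻¹) ^ n‖) atTop (𝓝 0) := by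
  have hdet := isUnit_det_real R h
  set Rr := R.map (Int.castRingHom ℝ) with hRr
  set Rc := R.map (Int.castRingHom ℂ) with hRc
  have hdr : IsUnit Rr.det := by
    have := (Int.castRingHom ℝ).map_det R
    have h2 : Rr.det = (R.det : ℝ) := this.symm
    rw [h2]
    exact (Int.cast_ne_zero.2 hdet).isUnit
  have hmap : Rc = Rr.map (algebraMap ℝ ℂ) := by
    ext i j
    simp [hRr, hRc]
  have hinv : (Rr⁻¹).map (algebraMap ℝ ℂ) = Rc⁻¹ := by
    symm
    apply Matrix.inv_eq_left_inv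
    rw [hmap, ← Matrix.map_mul, Matrix.nonsing_inv_mul _ hdr]
    simp
  have hdc : IsUnit Rc.det := by
    have := (Int.castRingHom ℂ).map_det R
    have h2 : Rc.det = (R.det : ℂ) := this.symm
    rw [h2]
    exact (Int.cast_ne_zero.2 hdet).isUnit
  have hsp : ∀ z ∈ spectrum ℂ (Rc⁻¹), ‖z‖ < 1 := by
    intro z hz
    let u : (Matrix (Fin d) (Fin d) ℂ)ˣ := Matrix.nonsingInvUnit Rc hdc
    have hu : (↑u : Matrix (Fin d) (Fin d) ℂ) = Rc := rfl
    have hu' : (↑u⁻¹ : Matrix (Fin d) (Fin d) ℂ) = Rc⁻¹ := by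
      rw [Matrix.coe_units_inv, hu]
    rw [← hu', ← spectrum.map_inv, hu] at hz
    rw [Set.mem_inv, Matrix.mem_spectrum_iff_isRoot_charpoly] at hz
    have h1 := h _ hz
    rw [norm_inv] at h1
    have hz0 : 0 < ‖z‖ := by
      by_contra hcon
      have : ‖z‖ = 0 := le_antisymm (not_lt.1 hcon) (norm_nonneg _)
      rw [this] at h1
      simp at h1
      linarith
    exact (one_lt_inv₀ hz0).1 h1
  have := norm_pow_tendsto (Rc⁻¹) hsp
  refine this.congr (fun n => ?_)
  rw [← hinv, ← norm_map_ofReal]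
  congr 1
  symm
  exact map_pow ((algebraMap ℝ ℂ).mapMatrix) _ n

end contraction

lemma contr {d : ℕ} (R : Matrix (Fin d) (Fin d) ℤ)
    (h : ∀ z : ℂ, (R.map (Int.castRingHom ℂ)).charpoly.IsRoot z → 1 < ‖z‖) (ε : ℝ) (hε : 0 < ε) :
    ∀ᶠ n : ℕ in atTop, ∀ x : Fin d → ℝ,
      ‖(((R.map (Int.castRingHom ℝ))⁻¹) ^ n) *ᵥ x‖ ≤ ε * ‖x‖ := by
  rcases isEmpty_or_nonempty (Fin d) with he | hne
  · refine Eventually.of_forall fun n x => ?_
    have : (((R.map (Int.castRingHom ℝ))⁻¹) ^ n) *ᵥ x = 0 := Subsingleton.elim _ _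
    rw [this, norm_zero]
    positivity
  · have h1 := (contr_aux R h).eventually (gt_mem_nhds hε)
    filter_upwards [h1] with n hn x
    refine (Matrix.linfty_opNorm_mulVec _ _).trans ?_
    exact mul_le_mul_of_nonneg_right hn.le (norm_nonneg _)

/-- The exponential with frequency `l`. -/
noncomputable def ex {d : ℕ} (l x : Fin d → ℝ) : ℂ :=
  Complex.exp (2 * Real.pi * Complex.I * ((∑ i, l i * x i : ℝ) : ℂ))

lemma ex_add {d : ℕ} (l x y : Fin d → ℝ) : ex l (x + y) = ex l x * ex l y := by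
  unfold ex
  rw [← Complex.exp_add]
  congr 1
  simp only [Pi.add_apply, mul_add, Finset.sum_add_distrib]
  push_cast
  ring

lemma norm_ex {d : ℕ} (l x : Fin d → ℝ) : ‖ex l x‖ = 1 := by
  unfold ex
  rw [Complex.norm_exp]
  simp

lemma continuous_ex {d : ℕ} (l : Fin d → ℝ) : Continuous (ex l) := by
  unfold ex
  fun_prop

lemma hb_norm_eq {ι E : Type*} [NormedAddCommGroup E] [InnerProductSpace ℂ E]
    (b : HilbertBasis ι ℂ E) (x y : E) (h : ∀ i, ‖inner ℂ (b i) x‖ = ‖inner ℂ (b i) y‖) :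
    ‖x‖ = ‖y‖ := by
  have hp : 0 < (2 : ENNReal).toReal := by norm_num
  rw [← b.repr.norm_map x, ← b.repr.norm_map y, lp.norm_eq_tsum_rpow hp, lp.norm_eq_tsum_rpow hp]
  congr 1
  refine tsum_congr fun i => ?_
  rw [b.repr_apply_apply, b.repr_apply_apply, h i]

lemma spectral_uniform {d : ℕ} (μ : Measure (Fin d → ℝ)) [IsProbabilityMeasure μ]
    (Λ : Set (Fin d → ℝ)) (e : Λ → Lp ℂ 2 μ)
    (he : ∀ l : Λ, (e l : (Fin d → ℝ) → ℂ) =ᵐ[μ] ex l)
    (ho : Orthonormal ℂ e) (hs : (Submodule.span ℂ (Set.range e)).topologicalClosure = ⊤)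
    (U : Set (Fin d → ℝ)) (hU : MeasurableSet U) (a : Fin d → ℝ)
    (h : ∀ S, MeasurableSet S → μ ((fun x => x + a) ⁻¹' S ∩ U) ≤ (2 : ENNReal)⁻¹ * μ S) :
    μ U = 0 := by
  have hma : Measurable (fun x : Fin d → ℝ => x + a) := measurable_add_const a
  obtain ⟨ν, hνdef⟩ : ∃ ν : Measure (Fin d → ℝ), ν = (μ.restrict U).map (fun x => x + a) :=
    ⟨_, rfl⟩
  have hν : ∀ S, MeasurableSet S → ν S = μ ((fun x => x + a) ⁻¹' S ∩ U) := by
    intro S hS
    rw [hνdef, Measure.map_apply hma hS, Measure.restrict_apply (hma hS)]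
  have hfin : IsFiniteMeasure ν := by
    constructor
    rw [hν _ MeasurableSet.univ]
    exact measure_lt_top _ _
  have hL1 : SFinite ν := inferInstance
  have hL2 : SigmaFinite μ := inferInstance
  have hL : ν.HaveLebesgueDecomposition μ := Measure.haveLebesgueDecomposition_of_sigmaFinite ν μ
  have hac : ν ≪ μ := by
    refine Measure.AbsolutelyContinuous.mk fun S hS h0 => ?_
    have := h S hS
    rw [h0, mul_zero] at this
    rw [hν S hS]
    exact le_antisymm this bot_le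
  let r : (Fin d → ℝ) → ENNReal := ν.rnDeriv μ
  have hrm : Measurable r := Measure.measurable_rnDeriv _ _
  have hr : r ≤ᵐ[μ] fun _ => (2 : ENNReal)⁻¹ := by
    refine ae_le_of_forall_setLIntegral_le_of_sigmaFinite hrm fun S hS _ => ?_
    rw [Measure.setLIntegral_rnDeriv hac]
    rw [setLIntegral_const, hν S hS]
    exact h S hS
  let ρ : (Fin d → ℝ) → ℝ := fun x => (r x).toReal
  have hρm : Measurable ρ := hrm.ennreal_toReal
  have hρ0 : ∀ x, 0 ≤ ρ x := fun x => ENNReal.toReal_nonneg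
  have hρ : ∀ᵐ x ∂μ, ρ x ≤ 1 / 2 := by
    filter_upwards [hr] with x hx
    have : ρ x ≤ ((2 : ENNReal)⁻¹).toReal := ENNReal.toReal_mono (by simp) hx
    simpa using this
  -- the function `F = ρ` in `L²`
  have hFm : MemLp (fun x => (ρ x : ℂ)) 2 μ := by
    refine MemLp.of_bound (hρm.complex_ofReal.aestronglyMeasurable) (1 / 2) ?_
    filter_upwards [hρ] with x hx
    rw [Complex.norm_real, Real.norm_eq_abs, abs_of_nonneg (hρ0 x)]
    exact hx
  let F : Lp ℂ 2 μ := hFm.toLp _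
  have hF : (F : (Fin d → ℝ) → ℂ) =ᵐ[μ] fun x => (ρ x : ℂ) := hFm.coeFn_toLp
  have hUf : μ U ≠ ⊤ := (measure_lt_top μ U).ne
  let G : Lp ℂ 2 μ := indicatorConstLp 2 hU hUf (1 : ℂ)
  let b : HilbertBasis Λ ℂ (Lp ℂ 2 μ) := HilbertBasis.mk ho hs.ge
  have hb : ∀ l, b l = e l := fun l => by
    rw [show (b : Λ → Lp ℂ 2 μ) = e from HilbertBasis.coe_mk ho hs.ge]
  -- coefficients
  have h1 : ∀ l : Λ, inner ℂ G (e l) = ∫ x in U, ex (l : Fin d → ℝ) x ∂μ := by
    intro l
    rw [L2.inner_indicatorConstLp_one]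
    exact integral_congr_ae (ae_restrict_of_ae (he l))
  have h2 : ∀ l : Λ, inner ℂ F (e l) = ex (l : Fin d → ℝ) a * ∫ x in U, ex (l : Fin d → ℝ) x ∂μ := by
    intro l
    rw [L2.inner_def]
    have e1 : ∫ x, inner ℂ (F x) (e l x) ∂μ = ∫ x, (ν.rnDeriv μ x).toReal • ex (l : Fin d → ℝ) x ∂μ := by
      refine integral_congr_ae ?_
      filter_upwards [hF, he l] with x hx1 hx2
      rw [hx1, hx2]
      simp [ρ, r]
      ring
    rw [e1, integral_rnDeriv_smul hac]
    have e2 : ∫ x, ex (l : Fin d → ℝ) x ∂ν = ∫ x in U, ex (l : Fin d → ℝ) (x + a) ∂μ := by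
      rw [hνdef, integral_map hma.aemeasurable (continuous_ex _).aestronglyMeasurable]
    rw [e2, ← integral_const_mul]
    congr 1
    ext x
    rw [ex_add]
    ring
  have h3 : ‖F‖ = ‖G‖ := by
    refine hb_norm_eq b F G fun l => ?_
    rw [hb, norm_inner_symm, norm_inner_symm (e l) G, h1, h2, norm_mul, norm_ex, one_mul]
  -- norms
  have h4 : ‖G‖ ^ 2 = (μ U).toReal := by
    have : ‖G‖ = ‖(1 : ℂ)‖ * (μ.real U) ^ (1 / (2 : ENNReal).toReal) :=
      norm_indicatorConstLp (by norm_num) (by norm_num)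
    rw [this]
    simp only [norm_one, one_mul]
    rw [← Real.rpow_natCast, ← Real.rpow_mul measureReal_nonneg]
    norm_num
    rfl
  have h5 : ‖F‖ ^ 2 = ∫ x, ρ x ^ 2 ∂μ := by
    have e1 : ((‖F‖ ^ 2 : ℝ) : ℂ) = ((∫ x, ρ x ^ 2 ∂μ : ℝ) : ℂ) := by
      have := inner_self_eq_norm_sq_to_K (𝕜 := ℂ) F
      rw [L2.inner_def] at this
      rw [← integral_complex_ofReal]
      push_cast
      refine Eq.trans this.symm ?_
      refine integral_congr_ae ?_
      filter_upwards [hF] with x hx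
      rw [hx]
      simp only [RCLike.inner_apply, Complex.conj_ofReal]
      ring
    exact_mod_cast e1
  have h6 : ∫ x, ρ x ∂μ = (μ U).toReal := by
    have := integral_toReal_rnDeriv_mul (μ := ν) (ν := μ) hac (f := fun _ => (1 : ℝ))
    simp only [mul_one] at this
    have h7 : ∫ x, ρ x ∂μ = ∫ x, (1 : ℝ) ∂ν := this
    rw [h7]
    simp only [integral_const, smul_eq_mul, mul_one, Measure.real]
    rw [hν _ MeasurableSet.univ]
    simp
  have hint : Integrable ρ μ := by
    have : Integrable (fun _ => (1/2 : ℝ)) μ := integrable_const _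
    refine this.mono' hρm.aestronglyMeasurable ?_
    filter_upwards [hρ] with x hx
    rw [Real.norm_eq_abs, abs_of_nonneg (hρ0 x)]
    exact hx
  have h8 : ∫ x, ρ x ^ 2 ∂μ ≤ ∫ x, (1 / 2) * ρ x ∂μ := by
    refine integral_mono_ae ?_ (hint.const_mul _) ?_
    · refine (hint.const_mul (1/2)).mono' (hρm.pow_const 2).aestronglyMeasurable ?_
      filter_upwards [hρ] with x hx
      rw [Real.norm_eq_abs, abs_of_nonneg (by positivity)]
      have := hρ0 x
      nlinarith
    · filter_upwards [hρ] with x hx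
      have := hρ0 x
      nlinarith
  rw [integral_const_mul, h6, ← h5, h3, h4] at h8
  have h9 : (μ U).toReal = 0 := by
    have : 0 ≤ (μ U).toReal := ENNReal.toReal_nonneg
    linarith
  rcases (ENNReal.toReal_eq_zero_iff _).1 h9 with h | h
  · exact h
  · exact absurd h hUf

variable {d : ℕ}

/-- cast integer vectors to real vectors -/
def cst (b : Fin d → ℤ) : Fin d → ℝ := fun i => (b i : ℝ)

lemma cst_add (a b : Fin d → ℤ) : cst (a + b) = cst a + cst b := by
  ext i; simp [cst]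

lemma cst_sub (a b : Fin d → ℤ) : cst (a - b) = cst a - cst b := by
  ext i; simp [cst]

lemma cst_zero : cst (0 : Fin d → ℤ) = 0 := by
  ext i; simp [cst]

lemma cst_injective : Function.Injective (cst : (Fin d → ℤ) → (Fin d → ℝ)) := by
  intro a b h
  ext i
  have := congrFun h i
  simpa [cst] using this

lemma cst_mulVec (M : Matrix (Fin d) (Fin d) ℤ) (b : Fin d → ℤ) :
    cst (M *ᵥ b) = (M.map (Int.castRingHom ℝ)) *ᵥ (cst b) := by
  ext i
  simp [cst, Matrix.mulVec, dotProduct]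

/-- composition of the maps along a word -/
def Phi (φ : (Fin d → ℤ) → (Fin d → ℝ) → (Fin d → ℝ)) :
    List (Fin d → ℤ) → (Fin d → ℝ) → (Fin d → ℝ)
  | [] => id
  | b :: w => φ b ∘ Phi φ w

/-- digit of a word -/
def Dig (R : Matrix (Fin d) (Fin d) ℤ) : List (Fin d → ℤ) → (Fin d → ℤ)
  | [] => 0
  | b :: w => Dig R w + (R ^ w.length) *ᵥ b

lemma Phi_append (φ : (Fin d → ℤ) → (Fin d → ℝ) → (Fin d → ℝ)) (u w : List (Fin d → ℤ)) :
    Phi φ (u ++ w) = Phi φ u ∘ Phi φ w := by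
  induction u with
  | nil => rfl
  | cons b u ih => simp only [List.cons_append, Phi, ih]; rfl

lemma Dig_append (R : Matrix (Fin d) (Fin d) ℤ) (u w : List (Fin d → ℤ)) :
    Dig R (u ++ w) = Dig R w + (R ^ w.length) *ᵥ (Dig R u) := by
  induction u with
  | nil => simp [Dig]
  | cons b u ih =>
    simp only [List.cons_append, Dig, ih, List.length_append, Matrix.mulVec_add]
    rw [Matrix.mulVec_mulVec, ← pow_add, add_comm w.length, add_assoc]

section
variable (R : Matrix (Fin d) (Fin d) ℤ) (hdet : R.det ≠ 0)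
include hdet

lemma isUnit_real_det : IsUnit (R.map (Int.castRingHom ℝ)).det := by
  have := (Int.castRingHom ℝ).map_det R
  have h2 : (R.map (Int.castRingHom ℝ)).det = (R.det : ℝ) := this.symm
  rw [h2]
  exact (Int.cast_ne_zero.2 hdet).isUnit

lemma inv_pow_mul_pow (n : ℕ) :
    ((R.map (Int.castRingHom ℝ))⁻¹) ^ n * ((R ^ n).map (Int.castRingHom ℝ)) = 1 := by
  have h : (R ^ n).map (Int.castRingHom ℝ) = (R.map (Int.castRingHom ℝ)) ^ n :=
    map_pow ((Int.castRingHom ℝ).mapMatrix) R n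
  rw [h]
  have hc : Commute ((R.map (Int.castRingHom ℝ))⁻¹) (R.map (Int.castRingHom ℝ)) := by
    unfold Commute SemiconjBy
    rw [Matrix.nonsing_inv_mul _ (isUnit_real_det R hdet),
      Matrix.mul_nonsing_inv _ (isUnit_real_det R hdet)]
  rw [← hc.mul_pow, Matrix.nonsing_inv_mul _ (isUnit_real_det R hdet), one_pow]

lemma Phi_eq (φ : (Fin d → ℤ) → (Fin d → ℝ) → (Fin d → ℝ))
    (hφ : ∀ b x, φ b x = (R.map (Int.castRingHom ℝ))⁻¹ *ᵥ (x + cst b))
    (w : List (Fin d → ℤ)) (x : Fin d → ℝ) :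
    Phi φ w x = ((R.map (Int.castRingHom ℝ))⁻¹) ^ w.length *ᵥ (x + cst (Dig R w)) := by
  induction w with
  | nil => simp [Phi, Dig, cst_zero]
  | cons b w ih =>
    simp only [Phi, Function.comp, hφ, ih, Dig, List.length_cons, cst_add, cst_mulVec]
    have key : cst b = ((R.map (Int.castRingHom ℝ))⁻¹) ^ w.length *ᵥ
        ((R ^ w.length).map (Int.castRingHom ℝ) *ᵥ (cst b)) := by
      rw [Matrix.mulVec_mulVec, inv_pow_mul_pow R hdet, Matrix.one_mulVec]
    conv_lhs => rw [key]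
    rw [← Matrix.mulVec_add, Matrix.mulVec_mulVec, ← pow_succ', add_assoc]

end

/-- prepend a letter -/
def consEmb : ((Fin d → ℤ) × List (Fin d → ℤ)) ↪ List (Fin d → ℤ) where
  toFun p := p.1 :: p.2
  inj' := fun p q h => by
    simp only [List.cons.injEq] at h
    exact Prod.ext h.1 h.2

lemma consEmb_apply (p : (Fin d → ℤ) × List (Fin d → ℤ)) : consEmb p = p.1 :: p.2 := rfl

/-- words of length n -/
def Words (B : Finset (Fin d → ℤ)) : ℕ → Finset (List (Fin d → ℤ))
  | 0 => {[]}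
  | n + 1 => (B ×ˢ Words B n).map consEmb

lemma mem_Words (B : Finset (Fin d → ℤ)) (n : ℕ) (w : List (Fin d → ℤ)) :
    w ∈ Words B n ↔ w.length = n ∧ ∀ b ∈ w, b ∈ B := by
  induction n generalizing w with
  | zero =>
    simp only [Words, Finset.mem_singleton, List.length_eq_zero_iff]
    constructor
    · rintro rfl; simp
    · exact fun h => h.1
  | succ n ih =>
    simp only [Words, Finset.mem_map, Finset.mem_product, consEmb_apply, Prod.exists]
    constructor
    · rintro ⟨b, v, ⟨hb, hv⟩, rfl⟩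
      rw [ih] at hv
      refine ⟨by simp [hv.1], ?_⟩
      intro c hc
      rcases List.mem_cons.1 hc with rfl | hc
      · exact hb
      · exact hv.2 c hc
    · rintro ⟨h1, h2⟩
      cases w with
      | nil => simp at h1
      | cons b v =>
        refine ⟨b, v, ⟨h2 b (by simp), ?_⟩, rfl⟩
        rw [ih]
        exact ⟨by simpa using h1, fun c hc => h2 c (by simp [hc])⟩

lemma card_Words (B : Finset (Fin d → ℤ)) (n : ℕ) : (Words B n).card = B.card ^ n := by
  induction n with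
  | zero => simp [Words]
  | succ n ih => simp [Words, ih, pow_succ']

lemma sum_Words_succ {β : Type*} [AddCommMonoid β] (B : Finset (Fin d → ℤ)) (n : ℕ)
    (f : List (Fin d → ℤ) → β) :
    ∑ w ∈ Words B (n + 1), f w = ∑ b ∈ B, ∑ w ∈ Words B n, f (b :: w) := by
  simp only [Words, Finset.sum_map, consEmb_apply, Finset.sum_product]

section measure

variable (B : Finset (Fin d → ℤ)) (φ : (Fin d → ℤ) → (Fin d → ℝ) → (Fin d → ℝ))
  (μ : Measure (Fin d → ℝ)) (hφm : ∀ b, Measurable (φ b))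
  (hμ : μ = ∑ b ∈ B, ((B.card : ENNReal)⁻¹) • μ.map (φ b))

include hφm in
lemma measurable_Phi (w : List (Fin d → ℤ)) : Measurable (Phi φ w) := by
  induction w with
  | nil => exact measurable_id
  | cons b w ih => exact (hφm b).comp ih

include hφm hμ in
lemma measure_iter (n : ℕ) (S : Set (Fin d → ℝ)) (hS : MeasurableSet S) :
    μ S = ∑ w ∈ Words B n, ((B.card : ENNReal)⁻¹) ^ n * μ (Phi φ w ⁻¹' S) := by
  induction n generalizing S with
  | zero => simp [Words, Phi]
  | succ n ih =>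
    rw [sum_Words_succ]
    have h1 : μ S = ∑ b ∈ B, ((B.card : ENNReal)⁻¹) * μ (φ b ⁻¹' S) := by
      conv_lhs => rw [hμ]
      rw [Measure.finsetSum_apply]
      refine Finset.sum_congr rfl fun b _ => ?_
      rw [Measure.smul_apply, Measure.map_apply (hφm b) hS, smul_eq_mul]
    rw [h1]
    refine Finset.sum_congr rfl fun b _ => ?_
    rw [ih _ (hφm b hS), Finset.mul_sum]
    refine Finset.sum_congr rfl fun w _ => ?_
    rw [← mul_assoc, ← pow_succ']
    rfl

end measure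

end Pool.Agent.Lib.Pbc76ba
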