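import Pool.Agent.Lib.Pbc76ba.Main

set_option autoImplicit false
open MeasureTheory Matrix Filter Topology

namespace Pool.Agent.Lib.Pbc76ba

variable {d : ℕ}

/-- the coefficient of `f` against the exponential with frequency `l` -/
noncomputable def coef (μ : Measure (Fin d → ℝ)) (f : (Fin d → ℝ) → ℂ) (l : Fin d → ℝ) : ℂ :=
  ∫ x, f x * ex (-l) x ∂μ

lemma frame_uniform (μ : Measure (Fin d → ℝ)) [IsProbabilityMeasure μ]
    (Λ : Set (Fin d → ℝ)) (A C : ℝ)
    (hlow : ∀ f : (Fin d → ℝ) → ℂ, MemLp f 2 μ →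
      ENNReal.ofReal A * ∫⁻ x, ‖f x‖ₑ ^ 2 ∂μ ≤ ∑' l : Λ, ‖coef μ f l‖ₑ ^ 2)
    (hup : ∀ f : (Fin d → ℝ) → ℂ, MemLp f 2 μ →
      ∑' l : Λ, ‖coef μ f l‖ₑ ^ 2 ≤ ENNReal.ofReal C * ∫⁻ x, ‖f x‖ₑ ^ 2 ∂μ)
    (U : Set (Fin d → ℝ)) (hU : MeasurableSet U) (a : Fin d → ℝ) (c : ENNReal) (hct : c ≠ ⊤)
    (hc : ENNReal.ofReal C * c < ENNReal.ofReal A)
    (h : ∀ S, MeasurableSet S → μ ((fun x => x + a) ⁻¹' S ∩ U) ≤ c * μ S) :
    μ U = 0 := by
  have hma : Measurable (fun x : Fin d → ℝ => x + a) := measurable_add_const a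
  obtain ⟨ν, hνdef⟩ : ∃ ν : Measure (Fin d → ℝ), ν = (μ.restrict U).map (fun x => x + a) :=
    ⟨_, rfl⟩
  have hν : ∀ S, MeasurableSet S → ν S = μ ((fun x => x + a) ⁻¹' S ∩ U) := by
    intro S hS
    rw [hνdef, Measure.map_apply hma hS, Measure.restrict_apply (hma hS)]
  have hfin : IsFiniteMeasure ν := by
    constructor
    rw [hν _ MeasurableSet.univ]
    exact measure_lt_top _ _
  have hL1 : SFinite ν := inferInstance
  have hL2 : SigmaFinite μ := inferInstance
  have hL : ν.HaveLebesgueDecomposition μ := Measure.haveLebesgueDecomposition_of_sigmaFinite ν μ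
  have hac : ν ≪ μ := by
    refine Measure.AbsolutelyContinuous.mk fun S hS h0 => ?_
    have := h S hS
    rw [h0, mul_zero] at this
    rw [hν S hS]
    exact le_antisymm this bot_le
  let r : (Fin d → ℝ) → ENNReal := ν.rnDeriv μ
  have hrm : Measurable r := Measure.measurable_rnDeriv _ _
  have hr : r ≤ᵐ[μ] fun _ => c := by
    refine ae_le_of_forall_setLIntegral_le_of_sigmaFinite hrm fun S hS _ => ?_
    rw [Measure.setLIntegral_rnDeriv hac]
    rw [setLIntegral_const, hν S hS]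
    exact h S hS
  let ρ : (Fin d → ℝ) → ℝ := fun x => (r x).toReal
  have hρm : Measurable ρ := hrm.ennreal_toReal
  have hρ0 : ∀ x, 0 ≤ ρ x := fun x => ENNReal.toReal_nonneg
  have hρ : ∀ᵐ x ∂μ, ρ x ≤ c.toReal := by
    filter_upwards [hr] with x hx
    exact ENNReal.toReal_mono hct hx
  -- the function `g = ρ`
  have hgm : MemLp (fun x => (ρ x : ℂ)) 2 μ := by
    refine MemLp.of_bound (hρm.complex_ofReal.aestronglyMeasurable) c.toReal ?_
    filter_upwards [hρ] with x hx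
    rw [Complex.norm_real, Real.norm_eq_abs, abs_of_nonneg (hρ0 x)]
    exact hx
  have hfm : MemLp (U.indicator fun _ => (1 : ℂ)) 2 μ :=
    memLp_indicator_const 2 hU 1 (Or.inr (measure_lt_top μ U).ne)
  have e1 : ∀ l : Fin d → ℝ, coef μ (U.indicator fun _ => (1 : ℂ)) l = ∫ x in U, ex (-l) x ∂μ := by
    intro l
    unfold coef
    rw [← integral_indicator hU]
    congr 1
    ext x
    by_cases hx : x ∈ U
    · simp [hx]
    · simp [hx]
  have e2 : ∀ l : Fin d → ℝ, coef μ (fun x => (ρ x : ℂ)) l =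
      ex (-l) a * ∫ x in U, ex (-l) x ∂μ := by
    intro l
    have h1 : coef μ (fun x => (ρ x : ℂ)) l = ∫ x, (ν.rnDeriv μ x).toReal • ex (-l) x ∂μ := by
      unfold coef
      congr 1
    rw [h1, integral_rnDeriv_smul hac]
    have h2 : ∫ x, ex (-l) x ∂ν = ∫ x in U, ex (-l) (x + a) ∂μ := by
      rw [hνdef, integral_map hma.aemeasurable (continuous_ex _).aestronglyMeasurable]
    rw [h2, ← integral_const_mul]
    congr 1
    ext x
    rw [ex_add]
    ring
  have e3 : ∀ l : Fin d → ℝ, ‖coef μ (fun x => (ρ x : ℂ)) l‖ₑ =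
      ‖coef μ (U.indicator fun _ => (1 : ℂ)) l‖ₑ := by
    intro l
    rw [e2, e1, enorm_mul]
    have : ‖ex (-l) a‖ₑ = 1 := by
      rw [← ofReal_norm, norm_ex, ENNReal.ofReal_one]
    rw [this, one_mul]
  have e4 : ∫⁻ x, ‖(U.indicator (fun _ => (1 : ℂ)) x)‖ₑ ^ 2 ∂μ = μ U := by
    have : (fun x => ‖(U.indicator (fun _ => (1 : ℂ)) x)‖ₑ ^ 2) =
        U.indicator fun _ => (1 : ENNReal) := by
      ext x
      by_cases hx : x ∈ U
      · simp [hx]
      · simp [hx]
    rw [this, lintegral_indicator hU]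
    simp
  have e5 : ∫⁻ x, ‖(ρ x : ℂ)‖ₑ ^ 2 ∂μ ≤ c * μ U := by
    have h1 : ∫⁻ x, ‖(ρ x : ℂ)‖ₑ ^ 2 ∂μ ≤ ∫⁻ x, c * r x ∂μ := by
      refine lintegral_mono_ae ?_
      filter_upwards [hr] with x hx
      have h2 : ‖(ρ x : ℂ)‖ₑ = r x := by
        rw [← ofReal_norm, Complex.norm_real, Real.norm_eq_abs, abs_of_nonneg (hρ0 x)]
        exact ENNReal.ofReal_toReal (ne_top_of_le_ne_top hct hx)
      rw [h2, pow_two]
      gcongr
    refine h1.trans ?_
    rw [lintegral_const_mul _ hrm]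
    gcongr
    rw [Measure.lintegral_rnDeriv hac, hν _ MeasurableSet.univ]
    exact measure_mono Set.inter_subset_right
  have h1 := hlow _ hfm
  have h2 := hup _ hgm
  simp only [e3] at h2
  rw [e4] at h1
  have h3 : ENNReal.ofReal A * μ U ≤ ENNReal.ofReal C * (c * μ U) :=
    h1.trans (h2.trans (by gcongr))
  by_contra hne
  rw [← mul_assoc] at h3
  have h4 := (ENNReal.mul_lt_mul_iff_left hne (measure_lt_top μ U).ne).2 hc
  exact absurd h3 (not_le.2 h4)

/-- `μ` has a Fourier frame -/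
def Framed (μ : Measure (Fin d → ℝ)) : Prop :=
  ∃ (Λ : Set (Fin d → ℝ)) (A C : ℝ), 0 < A ∧ ∀ f : (Fin d → ℝ) → ℂ, MemLp f 2 μ →
    ENNReal.ofReal A * ∫⁻ x, ‖f x‖ₑ ^ 2 ∂μ ≤ ∑' l : Λ, ‖coef μ f l‖ₑ ^ 2 ∧
    ∑' l : Λ, ‖coef μ f l‖ₑ ^ 2 ≤ ENNReal.ofReal C * ∫⁻ x, ‖f x‖ₑ ^ 2 ∂μ

namespace Sys

variable (s : Sys d)

/-- words with a given digit -/
noncomputable def Fib (n : ℕ) (t : Fin d → ℤ) : Finset (List (Fin d → ℤ)) :=
  open Classical in (Words s.B n).filter (fun w => Dig s.R w = t)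

lemma mem_Fib (n : ℕ) (t : Fin d → ℤ) (w : List (Fin d → ℤ)) :
    w ∈ s.Fib n t ↔ w ∈ Words s.B n ∧ Dig s.R w = t := by
  unfold Fib
  simp

lemma Fib_grow (n : ℕ) (u u' : List (Fin d → ℤ)) (hu : u ∈ Words s.B n)
    (hu' : u' ∈ Words s.B n) (h : Dig s.R u = Dig s.R u') (hne : u ≠ u') (k : ℕ) :
    ∃ t, 2 ^ k ≤ (s.Fib (k * n) t).card := by
  classical
  induction k with
  | zero =>
    refine ⟨0, ?_⟩
    have h1 : ([] : List (Fin d → ℤ)) ∈ s.Fib (0 * n) 0 := by
      rw [mem_Fib, zero_mul]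
      exact ⟨by simp [Words], rfl⟩
    have := Finset.card_pos.2 ⟨_, h1⟩
    simpa using this
  | succ k ih =>
    obtain ⟨t, ht⟩ := ih
    rw [mem_Words] at hu hu'
    refine ⟨t + (s.R ^ (k * n)) *ᵥ (Dig s.R u), ?_⟩
    have inj : ∀ v : List (Fin d → ℤ), Function.Injective (fun w : List (Fin d → ℤ) => v ++ w) :=
      fun v a b hab => List.append_cancel_left hab
    have hsub : (s.Fib (k * n) t).image (fun w => u ++ w) ∪
        (s.Fib (k * n) t).image (fun w => u' ++ w) ⊆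
        s.Fib ((k + 1) * n) (t + (s.R ^ (k * n)) *ᵥ (Dig s.R u)) := by
      intro w hw
      rw [Finset.mem_union, Finset.mem_image, Finset.mem_image] at hw
      rw [mem_Fib, mem_Words]
      rcases hw with ⟨v, hv, rfl⟩ | ⟨v, hv, rfl⟩
      · rw [mem_Fib, mem_Words] at hv
        refine ⟨⟨?_, ?_⟩, ?_⟩
        · rw [List.length_append, hu.1, hv.1.1]; ring
        · intro b hb
          rcases List.mem_append.1 hb with hb | hb
          · exact hu.2 b hb
          · exact hv.1.2 b hb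
        · rw [Dig_append, hv.1.1, hv.2]
      · rw [mem_Fib, mem_Words] at hv
        refine ⟨⟨?_, ?_⟩, ?_⟩
        · rw [List.length_append, hu'.1, hv.1.1]; ring
        · intro b hb
          rcases List.mem_append.1 hb with hb | hb
          · exact hu'.2 b hb
          · exact hv.1.2 b hb
        · rw [Dig_append, hv.1.1, hv.2, h]
    have hdisj : Disjoint ((s.Fib (k * n) t).image (fun w => u ++ w))
        ((s.Fib (k * n) t).image (fun w => u' ++ w)) := by
      rw [Finset.disjoint_left]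
      intro w hw hw'
      rw [Finset.mem_image] at hw hw'
      obtain ⟨v, _, rfl⟩ := hw
      obtain ⟨v', _, he⟩ := hw'
      exact hne (List.append_inj_left he.symm (hu.1.trans hu'.1.symm))
    calc 2 ^ (k + 1) ≤ (s.Fib (k * n) t).card + (s.Fib (k * n) t).card := by
          rw [pow_succ]; omega
      _ = ((s.Fib (k * n) t).image (fun w => u ++ w) ∪
          (s.Fib (k * n) t).image (fun w => u' ++ w)).card := by
          rw [Finset.card_union_of_disjoint hdisj, Finset.card_image_of_injective _ (inj u),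
            Finset.card_image_of_injective _ (inj u')]
      _ ≤ _ := Finset.card_le_card hsub

/-- no exact overlaps, frame version -/
lemma Dig_inj_frame (hs : Framed s.μ) (n : ℕ) (u u' : List (Fin d → ℤ)) (hu : u ∈ Words s.B n)
    (hu' : u' ∈ Words s.B n) (h : Dig s.R u = Dig s.R u') : u = u' := by
  by_contra hne
  have hprob := s.hp
  obtain ⟨Λ, A, C, hA, hfr⟩ := hs
  -- choose k
  obtain ⟨k, hk⟩ : ∃ k : ℕ, ENNReal.ofReal C * ((2 : ENNReal) ^ k)⁻¹ < ENNReal.ofReal A := by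
    have h1 : Tendsto (fun k : ℕ => ENNReal.ofReal C * ((2 : ENNReal)⁻¹) ^ k) atTop
        (𝓝 (ENNReal.ofReal C * 0)) := by
      refine ENNReal.Tendsto.const_mul ?_ (Or.inr ENNReal.ofReal_ne_top)
      exact ENNReal.tendsto_pow_atTop_nhds_zero_of_lt_one (by simp)
    rw [mul_zero] at h1
    obtain ⟨k, hk⟩ := (h1.eventually (gt_mem_nhds (ENNReal.ofReal_pos.2 hA))).exists
    refine ⟨k, ?_⟩
    rw [ENNReal.inv_pow]
    exact hk
  obtain ⟨t, ht⟩ := s.Fib_grow n u u' hu hu' h hne k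
  set m := k * n with hm
  have hFne : (s.Fib m t).Nonempty := by
    rw [← Finset.card_pos]
    exact lt_of_lt_of_le (by positivity) ht
  obtain ⟨u1, hu1⟩ := hFne
  rw [mem_Fib] at hu1
  obtain ⟨f, hf⟩ := s.exists_generic m
  obtain ⟨w0, hw0, hmax⟩ := s.exists_extreme m f hf
  have hfc : Continuous f := f.continuous_of_finiteDimensional
  obtain ⟨x0, hx0, hx0max⟩ := s.hTc.exists_isMaxOn s.hTn
    (f := fun x => f ((s.A ^ m) *ᵥ x))
    (hfc.comp (Continuous.matrix_mulVec continuous_const continuous_id)).continuousOn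
  set hh : ℝ := f ((s.A ^ m) *ᵥ x0) with hhdef
  have hxmax : ∀ x ∈ s.T, f ((s.A ^ m) *ᵥ x) ≤ hh := fun x hx => hx0max hx
  set g : List (Fin d → ℤ) → ℝ := fun w => f ((s.A ^ m) *ᵥ cst (Dig s.R w)) with hg
  have hfP : ∀ w ∈ Words s.B m, ∀ x, f (s.P w x) = f ((s.A ^ m) *ᵥ x) + g w := by
    intro w hw x
    rw [mem_Words] at hw
    rw [s.P_eq, hw.1, Matrix.mulVec_add, map_add]
  set U : Set (Fin d → ℝ) := ⋂ w ∈ (Words s.B m).erase w0, {y | hh + g w < f y} with hUdef
  have hUo : IsOpen U := by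
    apply isOpen_biInter_finset
    intro w _
    exact isOpen_lt continuous_const hfc
  have hy0T : s.P w0 x0 ∈ s.T := s.P_mem w0 ((mem_Words _ _ _).1 hw0).2 x0 hx0
  have hy0U : s.P w0 x0 ∈ U := by
    rw [hUdef]
    simp only [Set.mem_iInter, Set.mem_ofPred_eq]
    intro w hw
    rw [hfP w0 hw0]
    have := hmax w (Finset.mem_of_mem_erase hw) (Finset.ne_of_mem_erase hw)
    simp only [hg]
    linarith
  have hUpos : 0 < s.μ U := s.mu_pos_of_isOpen U hUo _ hy0T hy0U
  have hzero : ∀ w ∈ Words s.B m, w ≠ w0 → s.μ (s.P w ⁻¹' U) = 0 := by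
    intro w hw hne
    apply s.mu_null_of_disjoint
    ext x
    simp only [Set.mem_inter_iff, Set.mem_preimage, Set.mem_empty_iff_false, iff_false, not_and]
    intro hxU hxT
    rw [hUdef] at hxU
    simp only [Set.mem_iInter, Set.mem_ofPred_eq] at hxU
    have h1 := hxU w (Finset.mem_erase.2 ⟨hne, hw⟩)
    rw [hfP w hw] at h1
    have := hxmax x hxT
    linarith
  -- translation
  set a : Fin d → ℝ := (s.A ^ m) *ᵥ (cst (Dig s.R u1) - cst (Dig s.R w0)) with ha
  have hPu : ∀ x, s.P w0 x + a = s.P u1 x := by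
    intro x
    rw [s.P_eq, s.P_eq, ((mem_Words _ _ _).1 hw0).1, ((mem_Words _ _ _).1 hu1.1).1, ha,
      ← Matrix.mulVec_add]
    congr 1
    abel
  have hPu' : ∀ w ∈ s.Fib m t, s.P w = s.P u1 := by
    intro w hw
    rw [mem_Fib] at hw
    ext1 x
    rw [s.P_eq, s.P_eq, ((mem_Words _ _ _).1 hw.1).1, ((mem_Words _ _ _).1 hu1.1).1, hw.2, hu1.2]
  have hU0 : s.μ U = 0 := by
    refine frame_uniform s.μ Λ A C (fun f hf => (hfr f hf).1) (fun f hf => (hfr f hf).2) U
      hUo.measurableSet a (((2 : ENNReal) ^ k)⁻¹) (by simp) hk ?_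
    intro S hS
    have hm1 : MeasurableSet ((fun x => x + a) ⁻¹' S ∩ U) :=
      (measurable_add_const a hS).inter hUo.measurableSet
    have h1 : s.μ ((fun x => x + a) ⁻¹' S ∩ U) ≤ s.q ^ m * s.μ (s.P u1 ⁻¹' S) := by
      rw [s.iter m _ hm1]
      rw [Finset.sum_eq_single w0]
      · gcongr
        intro x hx
        simp only [Set.mem_preimage, Set.mem_inter_iff] at hx ⊢
        rw [← hPu x]
        exact hx.1
      · intro w hw hne
        have : s.μ (s.P w ⁻¹' ((fun x => x + a) ⁻¹' S ∩ U)) = 0 :=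
          measure_mono_null (Set.preimage_mono Set.inter_subset_right) (hzero w hw hne)
        rw [this, mul_zero]
      · intro h
        exact absurd hw0 h
    have h2 : (2 : ENNReal) ^ k * (s.q ^ m * s.μ (s.P u1 ⁻¹' S)) ≤ s.μ S := by
      rw [s.iter m S hS]
      have h3 : s.Fib m t ⊆ Words s.B m := by
        intro w hw
        rw [mem_Fib] at hw
        exact hw.1
      calc (2 : ENNReal) ^ k * (s.q ^ m * s.μ (s.P u1 ⁻¹' S))
          ≤ ((s.Fib m t).card : ENNReal) * (s.q ^ m * s.μ (s.P u1 ⁻¹' S)) := by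
            gcongr
            exact_mod_cast ht
        _ = ∑ w ∈ s.Fib m t, s.q ^ m * s.μ (s.P w ⁻¹' S) := by
            rw [Finset.sum_congr rfl (fun w hw => by rw [hPu' w hw]), Finset.sum_const,
              nsmul_eq_mul]
        _ ≤ _ := Finset.sum_le_sum_of_subset h3
    calc s.μ ((fun x => x + a) ⁻¹' S ∩ U) ≤ s.q ^ m * s.μ (s.P u1 ⁻¹' S) := h1
      _ = ((2 : ENNReal) ^ k)⁻¹ * ((2 : ENNReal) ^ k * (s.q ^ m * s.μ (s.P u1 ⁻¹' S))) := by
          rw [← mul_assoc, ENNReal.inv_mul_cancel (by simp) (by simp), one_mul]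
      _ ≤ ((2 : ENNReal) ^ k)⁻¹ * s.μ S := by gcongr
  exact hUpos.ne' hU0

/-- separation of two words of the same length -/
lemma separated_word (hinj : ∀ (n : ℕ) (u u' : List (Fin d → ℤ)), u ∈ Words s.B n →
      u' ∈ Words s.B n → Dig s.R u = Dig s.R u' → u = u') :
    ∃ w0 : List (Fin d → ℤ), (∀ b ∈ w0, b ∈ s.B) ∧
    ∀ p p' : List (Fin d → ℤ), p ≠ p' → p.length = p'.length → (∀ b ∈ p, b ∈ s.B) →
      (∀ b ∈ p', b ∈ s.B) → ∀ u : List (Fin d → ℤ), (∀ c ∈ u, c ∈ s.B) →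
      ∀ x ∈ s.T, s.P (p ++ u ++ w0) x ∉ s.P p' '' s.T := by
  obtain ⟨w0, hw0, hmax⟩ := s.exists_max_Nb
  refine ⟨w0, hw0, ?_⟩
  intro p p' hne hlp hp hp' u hu x hx hmem
  have hbu : ∀ c ∈ p ++ u, c ∈ s.B := by
    intro c hc
    rcases List.mem_append.1 hc with hc | hc
    · exact hp c hc
    · exact hu c hc
  have hfull : ∀ c ∈ p ++ u ++ w0, c ∈ s.B := by
    intro c hc
    rcases List.mem_append.1 hc with hc | hc
    · exact hbu c hc
    · exact hw0 c hc
  have heq : s.Nb w0 = s.Nb (p ++ u ++ w0) :=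
    Finset.eq_of_subset_of_card_le (s.Nb_append (p ++ u) w0 hbu) (hmax _ hfull)
  obtain ⟨y, hy, hyx⟩ := hmem
  obtain ⟨v, hv, z, hz, hzy⟩ := s.exists_word (u.length + w0.length) y hy
  have hv' : p' ++ v ∈ Words s.B (p ++ u ++ w0).length := by
    rw [mem_Words] at hv ⊢
    refine ⟨by simp [hv.1, hlp], ?_⟩
    intro c hc
    rcases List.mem_append.1 hc with hc | hc
    · exact hp' c hc
    · exact hv.2 c hc
  have h1 : s.P (p' ++ v) z = s.P (p ++ u ++ w0) x := by
    rw [P_append, Function.comp, hzy, hyx]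
  have hlen : (p' ++ v).length = (p ++ u ++ w0).length := ((mem_Words _ _ _).1 hv').1
  have h2 : z + cst (Dig s.R (p' ++ v)) = x + cst (Dig s.R (p ++ u ++ w0)) := by
    rw [s.P_eq, s.P_eq, hlen] at h1
    have hc : ((s.R.map (Int.castRingHom ℝ)) ^ ((p ++ u ++ w0).length)) *
        (s.A ^ ((p ++ u ++ w0).length)) = 1 := by
      have hc : Commute (s.R.map (Int.castRingHom ℝ)) s.A := by
        unfold Commute SemiconjBy A
        rw [Matrix.nonsing_inv_mul _ (isUnit_real_det s.R s.hdet),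
          Matrix.mul_nonsing_inv _ (isUnit_real_det s.R s.hdet)]
      rw [← hc.mul_pow]
      unfold A
      rw [Matrix.mul_nonsing_inv _ (isUnit_real_det s.R s.hdet), one_pow]
    have := congrArg (fun x => ((s.R.map (Int.castRingHom ℝ)) ^ ((p ++ u ++ w0).length)) *ᵥ x) h1
    simp only [Matrix.mulVec_mulVec, hc, Matrix.one_mulVec] at this
    exact this
  set k : Fin d → ℤ := Dig s.R (p' ++ v) - Dig s.R (p ++ u ++ w0) with hk
  have hkNb : k ∈ s.Nb (p ++ u ++ w0) := by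
    rw [mem_Nb]
    refine ⟨⟨z, hz, x, hx, ?_⟩, p' ++ v, hv', rfl⟩
    rw [hk, cst_sub, ← add_sub_assoc, h2]
    abel
  rw [← heq, mem_Nb] at hkNb
  obtain ⟨_, w', hw', hkw'⟩ := hkNb
  have h3 : Dig s.R (p ++ u ++ w') = Dig s.R (p' ++ v) := by
    have e1 : Dig s.R (p ++ u ++ w') = Dig s.R w' + (s.R ^ w'.length) *ᵥ Dig s.R (p ++ u) :=
      Dig_append s.R (p ++ u) w'
    have e2 : Dig s.R (p ++ u ++ w0) = Dig s.R w0 + (s.R ^ w0.length) *ᵥ Dig s.R (p ++ u) :=
      Dig_append s.R (p ++ u) w0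
    have e3 : w'.length = w0.length := ((mem_Words _ _ _).1 hw').1
    rw [e1, e3]
    have e4 : Dig s.R w' = k + Dig s.R w0 := by rw [← hkw']; abel
    rw [e4, hk, e2]
    abel
  have h4 : p ++ u ++ w' ∈ Words s.B (p ++ u ++ w0).length := by
    rw [mem_Words] at hw' ⊢
    refine ⟨by simp [hw'.1], ?_⟩
    intro c hc
    rcases List.mem_append.1 hc with hc | hc
    · exact hbu c hc
    · exact hw'.2 c hc
  have h5 := hinj _ _ _ h4 hv' h3
  rw [List.append_assoc] at h5
  exact hne (List.append_inj_left h5 hlp)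

/-- measure separation of two words of the same length -/
lemma mu_sep_word (hinj : ∀ (n : ℕ) (u u' : List (Fin d → ℤ)), u ∈ Words s.B n →
      u' ∈ Words s.B n → Dig s.R u = Dig s.R u' → u = u')
    (p p' : List (Fin d → ℤ)) (hne : p ≠ p') (hlp : p.length = p'.length)
    (hp : ∀ b ∈ p, b ∈ s.B) (hp' : ∀ b ∈ p', b ∈ s.B) :
    s.μ (s.P p ⁻¹' (s.P p' '' s.T)) = 0 := by
  have hprob := s.hp
  obtain ⟨w0, hw0, hsep⟩ := s.separated_word hinj
  set E : Set (Fin d → ℝ) := s.P p' '' s.T with hE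
  have hEc : IsCompact E := s.hTc.image (s.continuous_P p')
  have hEm : MeasurableSet E := hEc.measurableSet
  set n := w0.length with hn
  have hw0' : w0 ∈ Words s.B n := by
    rw [mem_Words]
    exact ⟨rfl, hw0⟩
  -- sup over words
  let β : ENNReal := ⨆ u : {u : List (Fin d → ℤ) // ∀ c ∈ u, c ∈ s.B},
    s.μ (s.P (p ++ u.1) ⁻¹' E)
  have hβ1 : β ≤ 1 := iSup_le fun u => prob_le_one
  have hstep : ∀ u : {u : List (Fin d → ℤ) // ∀ c ∈ u, c ∈ s.B},
      s.μ (s.P (p ++ u.1) ⁻¹' E) ≤ ((s.B.card ^ n - 1 : ℕ) : ENNReal) * s.q ^ n * β := by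
    rintro ⟨u, hu⟩
    have hm : MeasurableSet (s.P (p ++ u) ⁻¹' E) := s.measurable_P _ hEm
    rw [s.iter n _ hm]
    have h0 : s.μ (s.P w0 ⁻¹' (s.P (p ++ u) ⁻¹' E)) = 0 := by
      apply s.mu_null_of_disjoint
      ext x
      simp only [Set.mem_inter_iff, Set.mem_preimage, Set.mem_empty_iff_false, iff_false, not_and]
      intro h1 hxT
      apply hsep p p' hne hlp hp hp' u hu x hxT
      rw [s.P_append]
      exact h1
    rw [← Finset.add_sum_erase _ _ hw0', h0, mul_zero, zero_add]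
    calc ∑ w ∈ (Words s.B n).erase w0, s.q ^ n * s.μ (s.P w ⁻¹' (s.P (p ++ u) ⁻¹' E))
        ≤ ∑ w ∈ (Words s.B n).erase w0, s.q ^ n * β := by
          refine Finset.sum_le_sum fun w hw => ?_
          have hw' : ∀ c ∈ w, c ∈ s.B :=
            ((mem_Words _ _ _).1 (Finset.mem_of_mem_erase hw)).2
          have huw : ∀ c ∈ u ++ w, c ∈ s.B := by
            intro c hc
            rcases List.mem_append.1 hc with hc | hc
            · exact hu c hc
            · exact hw' c hc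
          have : s.μ (s.P w ⁻¹' (s.P (p ++ u) ⁻¹' E)) ≤ β := by
            have e : s.P w ⁻¹' (s.P (p ++ u) ⁻¹' E) = s.P (p ++ (u ++ w)) ⁻¹' E := by
              rw [← List.append_assoc, s.P_append (p ++ u) w, Set.preimage_comp]
            rw [e]
            exact le_iSup (fun u : {u : List (Fin d → ℤ) // ∀ c ∈ u, c ∈ s.B} =>
              s.μ (s.P (p ++ u.1) ⁻¹' E)) ⟨u ++ w, huw⟩
          gcongr
      _ = ((s.B.card ^ n - 1 : ℕ) : ENNReal) * s.q ^ n * β := by
          rw [Finset.sum_const, Finset.card_erase_of_mem hw0', card_Words, nsmul_eq_mul, mul_assoc]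
  have hβ2 : β ≤ ((s.B.card ^ n - 1 : ℕ) : ENNReal) * s.q ^ n * β := iSup_le hstep
  have hβ0 : β = 0 := by
    by_contra hpos
    have hβt : β ≠ ⊤ := ne_top_of_le_ne_top ENNReal.one_ne_top hβ1
    have hlt : ((s.B.card ^ n - 1 : ℕ) : ENNReal) * s.q ^ n < 1 := by
      rw [← s.q_pow_mul n, mul_comm (s.q ^ n)]
      have hq0 : s.q ^ n ≠ 0 := pow_ne_zero _ s.q_ne_zero
      have hqt : s.q ^ n ≠ ⊤ := ENNReal.pow_ne_top s.q_ne_top
      refine (ENNReal.mul_lt_mul_iff_left hq0 hqt).2 ?_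
      have : s.B.card ^ n - 1 < s.B.card ^ n := by
        have := pow_pos s.card_pos n
        omega
      exact_mod_cast this
    have : ((s.B.card ^ n - 1 : ℕ) : ENNReal) * s.q ^ n * β < 1 * β :=
      (ENNReal.mul_lt_mul_iff_left hpos hβt).2 hlt
    rw [one_mul] at this
    exact absurd hβ2 (not_le.2 this)
  have h1 : s.μ (s.P (p ++ []) ⁻¹' E) ≤ β :=
    le_iSup (fun u : {u : List (Fin d → ℤ) // ∀ c ∈ u, c ∈ s.B} =>
              s.μ (s.P (p ++ u.1) ⁻¹' E)) ⟨[], by simp⟩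
  rw [hβ0, List.append_nil] at h1
  exact le_antisymm h1 bot_le

lemma no_overlap_word (hinj : ∀ (n : ℕ) (u u' : List (Fin d → ℤ)), u ∈ Words s.B n →
      u' ∈ Words s.B n → Dig s.R u = Dig s.R u' → u = u')
    (p p' : List (Fin d → ℤ)) (hne : p ≠ p') (hlp : p.length = p'.length)
    (hp : ∀ b ∈ p, b ∈ s.B) (hp' : ∀ b ∈ p', b ∈ s.B) :
    s.μ (s.P p '' s.T ∩ s.P p' '' s.T) = 0 := by
  have hm : MeasurableSet (s.P p '' s.T ∩ s.P p' '' s.T) :=
    ((s.hTc.image (s.continuous_P p)).measurableSet).inter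
      (s.hTc.image (s.continuous_P p')).measurableSet
  rw [s.iter p.length _ hm]
  apply Finset.sum_eq_zero
  intro w hw
  rw [mem_Words] at hw
  have h0 : s.μ (s.P w ⁻¹' (s.P p '' s.T ∩ s.P p' '' s.T)) = 0 := by
    by_cases hcb : w = p
    · subst hcb
      exact measure_mono_null (Set.preimage_mono Set.inter_subset_right)
        (s.mu_sep_word hinj w p' hne hlp hw.2 hp')
    · exact measure_mono_null (Set.preimage_mono Set.inter_subset_left)
        (s.mu_sep_word hinj w p hcb hw.1 hw.2 hp)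
  rw [h0, mul_zero]

/-- no overlap for incomparable words -/
theorem no_overlap_frame (hs : Framed s.μ) (u v : List (Fin d → ℤ)) (hu : ∀ b ∈ u, b ∈ s.B)
    (hv : ∀ b ∈ v, b ∈ s.B) (huv : ¬ u <+: v) (hvu : ¬ v <+: u) :
    s.μ (s.P u '' s.T ∩ s.P v '' s.T) = 0 := by
  have key : ∀ u v : List (Fin d → ℤ), (∀ b ∈ u, b ∈ s.B) → (∀ b ∈ v, b ∈ s.B) → ¬ u <+: v →
      u.length ≤ v.length → s.μ (s.P u '' s.T ∩ s.P v '' s.T) = 0 := by
    intro u v hu hv huv hl
    have h1 : (v.take u.length).length = u.length := by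
      rw [List.length_take]; omega
    have h2 : u ≠ v.take u.length := by
      intro h
      apply huv
      rw [h]
      exact List.take_prefix _ _
    have h3 : ∀ b ∈ v.take u.length, b ∈ s.B := fun b hb => hv b (List.mem_of_mem_take hb)
    have h4 : ∀ b ∈ v.drop u.length, b ∈ s.B := fun b hb => hv b (List.mem_of_mem_drop hb)
    have h5 : s.P v '' s.T ⊆ s.P (v.take u.length) '' s.T := by
      conv_lhs => rw [← List.take_append_drop u.length v]
      rw [P_append, Set.image_comp]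
      apply Set.image_mono
      rintro _ ⟨y, hy, rfl⟩
      exact s.P_mem _ h4 y hy
    exact measure_mono_null (Set.inter_subset_inter_right _ h5)
      (s.no_overlap_word (s.Dig_inj_frame hs) u _ h2 h1.symm hu h3)
  rcases le_total u.length v.length with hl | hl
  · exact key u v hu hv huv hl
  · rw [Set.inter_comm]
    exact key v u hv hu hvu hl

end Sys

end Pool.Agent.Lib.Pbc76ba
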