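import Pool.Agent.Lib.Pbc76ba.Basic

set_option autoImplicit false
open MeasureTheory Matrix Filter Topology

namespace Pool.Agent.Lib.Pbc76ba

variable {d : ℕ}

/-- the standing data of a self-affine system -/
structure Sys (d : ℕ) where
  R : Matrix (Fin d) (Fin d) ℤ
  B : Finset (Fin d → ℤ)
  φ : (Fin d → ℤ) → (Fin d → ℝ) → (Fin d → ℝ)
  μ : Measure (Fin d → ℝ)
  T : Set (Fin d → ℝ)
  hR : ∀ z : ℂ, (R.map (Int.castRingHom ℂ)).charpoly.IsRoot z → 1 < ‖z‖
  hφ : ∀ b x, φ b x = (R.map (Int.castRingHom ℝ))⁻¹ *ᵥ (x + cst b)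
  hp : IsProbabilityMeasure μ
  hμ : μ = ∑ b ∈ B, ((B.card : ENNReal)⁻¹) • μ.map (φ b)
  hTc : IsCompact T
  hTn : T.Nonempty
  hT : T = ⋃ b ∈ B, φ b '' T

namespace Sys

variable (s : Sys d)

/-- the inverse matrix -/
noncomputable def A : Matrix (Fin d) (Fin d) ℝ := (s.R.map (Int.castRingHom ℝ))⁻¹

/-- the composed maps -/
def P (w : List (Fin d → ℤ)) : (Fin d → ℝ) → (Fin d → ℝ) := Phi s.φ w

lemma hdet : s.R.det ≠ 0 := isUnit_det_real s.R s.hR

lemma P_eq (w : List (Fin d → ℤ)) (x : Fin d → ℝ) :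
    s.P w x = (s.A ^ w.length) *ᵥ (x + cst (Dig s.R w)) :=
  Phi_eq s.R s.hdet s.φ s.hφ w x

lemma P_nil : s.P [] = id := rfl

lemma P_cons (b : Fin d → ℤ) (w : List (Fin d → ℤ)) : s.P (b :: w) = s.φ b ∘ s.P w := rfl

lemma P_append (u w : List (Fin d → ℤ)) : s.P (u ++ w) = s.P u ∘ s.P w := Phi_append s.φ u w

lemma P_sub (w : List (Fin d → ℤ)) (x y : Fin d → ℝ) :
    s.P w x - s.P w y = (s.A ^ w.length) *ᵥ (x - y) := by
  rw [P_eq, P_eq, ← Matrix.mulVec_sub]
  congr 1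
  abel

lemma continuous_φ (b : Fin d → ℤ) : Continuous (s.φ b) := by
  have : s.φ b = fun x => (s.R.map (Int.castRingHom ℝ))⁻¹ *ᵥ (x + cst b) := funext (s.hφ b)
  rw [this]
  exact Continuous.matrix_mulVec continuous_const (by fun_prop)

lemma continuous_P (w : List (Fin d → ℤ)) : Continuous (s.P w) := by
  induction w with
  | nil => exact continuous_id
  | cons b w ih => exact (s.continuous_φ b).comp ih

lemma measurable_P (w : List (Fin d → ℤ)) : Measurable (s.P w) := (s.continuous_P w).measurable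

/-- N -/
noncomputable def q : ENNReal := (s.B.card : ENNReal)⁻¹

lemma iter (n : ℕ) (S : Set (Fin d → ℝ)) (hS : MeasurableSet S) :
    s.μ S = ∑ w ∈ Words s.B n, s.q ^ n * s.μ (s.P w ⁻¹' S) :=
  measure_iter s.B s.φ s.μ (fun b => (s.continuous_φ b).measurable) s.hμ n S hS

lemma B_nonempty : s.B.Nonempty := by
  by_contra h
  rw [Finset.not_nonempty_iff_eq_empty] at h
  have h1 := s.hμ
  rw [h, Finset.sum_empty] at h1
  have h2 := s.hp.measure_univ
  rw [h1] at h2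
  simp at h2

lemma card_pos : 0 < s.B.card := s.B_nonempty.card_pos

lemma q_ne_top : s.q ≠ ⊤ := by
  unfold q
  simp only [ne_eq, ENNReal.inv_eq_top, Nat.cast_eq_zero]
  exact s.card_pos.ne'

lemma q_ne_zero : s.q ≠ 0 := by
  unfold q
  simp

lemma q_pow_mul (n : ℕ) : s.q ^ n * ((s.B.card : ENNReal) ^ n) = 1 := by
  rw [← mul_pow]
  unfold q
  rw [ENNReal.inv_mul_cancel, one_pow]
  · simpa using s.card_pos.ne'
  · simp

lemma sum_const_words (n : ℕ) (c : ENNReal) :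
    ∑ _w ∈ Words s.B n, s.q ^ n * c = c := by
  rw [Finset.sum_const, card_Words, nsmul_eq_mul, ← mul_assoc]
  push_cast
  rw [mul_comm ((s.B.card : ENNReal) ^ n), s.q_pow_mul, one_mul]

lemma φ_mem (b : Fin d → ℤ) (hb : b ∈ s.B) (x : Fin d → ℝ) (hx : x ∈ s.T) : s.φ b x ∈ s.T := by
  rw [s.hT]
  exact Set.mem_biUnion hb ⟨x, hx, rfl⟩

lemma P_mem (w : List (Fin d → ℤ)) (hw : ∀ b ∈ w, b ∈ s.B) (x : Fin d → ℝ) (hx : x ∈ s.T) :
    s.P w x ∈ s.T := by
  induction w with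
  | nil => exact hx
  | cons b w ih =>
    exact s.φ_mem b (hw b (by simp)) _ (ih fun c hc => hw c (by simp [hc]))

lemma exists_word (n : ℕ) (x : Fin d → ℝ) (hx : x ∈ s.T) :
    ∃ w ∈ Words s.B n, ∃ y ∈ s.T, s.P w y = x := by
  induction n generalizing x with
  | zero => exact ⟨[], by simp [Words], x, hx, rfl⟩
  | succ n ih =>
    have h := hx
    rw [s.hT] at h
    simp only [Set.mem_iUnion, Set.mem_image] at h
    obtain ⟨b, hb, y, hy, rfl⟩ := h
    obtain ⟨w, hw, z, hz, rfl⟩ := ih y hy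
    refine ⟨b :: w, ?_, z, hz, rfl⟩
    rw [mem_Words] at hw ⊢
    refine ⟨by simp [hw.1], ?_⟩
    intro c hc
    rcases List.mem_cons.1 hc with rfl | hc
    · exact hb
    · exact hw.2 c hc

lemma contrA (ε : ℝ) (hε : 0 < ε) :
    ∀ᶠ n : ℕ in atTop, ∀ x : Fin d → ℝ, ‖(s.A ^ n) *ᵥ x‖ ≤ ε * ‖x‖ :=
  contr s.R s.hR ε hε

lemma mu_far_le (ε : ℝ) (hε : 0 < ε) (M : ℕ) :
    s.μ {x | ε < Metric.infDist x s.T} ≤ s.μ {x | (M : ℝ) < ‖x‖} := by
  obtain ⟨t0, ht0⟩ := s.hTn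
  have hC : 0 < (M : ℝ) + ‖t0‖ + 1 := by positivity
  obtain ⟨n, hn⟩ := (s.contrA (ε / ((M : ℝ) + ‖t0‖ + 1)) (by positivity)).exists
  have hmeas : MeasurableSet {x | ε < Metric.infDist x s.T} :=
    (isOpen_lt continuous_const (Metric.continuous_infDist_pt _)).measurableSet
  rw [s.iter n _ hmeas]
  rw [← s.sum_const_words n (s.μ {x | (M : ℝ) < ‖x‖})]
  refine Finset.sum_le_sum fun w hw => ?_
  gcongr
  intro x hx
  simp only [Set.mem_preimage, Set.mem_ofPred_eq] at hx ⊢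
  by_contra hcon
  rw [not_lt] at hcon
  rw [mem_Words] at hw
  have h1 : s.P w t0 ∈ s.T := s.P_mem w hw.2 t0 ht0
  have h2 : Metric.infDist (s.P w x) s.T ≤ dist (s.P w x) (s.P w t0) :=
    Metric.infDist_le_dist_of_mem h1
  rw [dist_eq_norm, s.P_sub, hw.1] at h2
  have h3 := hn (x - t0)
  have h4 : ‖x - t0‖ ≤ (M : ℝ) + ‖t0‖ + 1 := by
    have := norm_sub_le x t0
    linarith
  have h5 : ε / ((M : ℝ) + ‖t0‖ + 1) * ‖x - t0‖ ≤ ε := by
    calc ε / ((M : ℝ) + ‖t0‖ + 1) * ‖x - t0‖ ≤ ε / ((M : ℝ) + ‖t0‖ + 1) * ((M : ℝ) + ‖t0‖ + 1) := by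
          gcongr
      _ = ε := by field_simp
  linarith

lemma mu_far (ε : ℝ) (hε : 0 < ε) : s.μ {x | ε < Metric.infDist x s.T} = 0 := by
  have hprob := s.hp
  have h1 : Tendsto (s.μ ∘ fun M : ℕ => {x : Fin d → ℝ | (M : ℝ) < ‖x‖}) atTop
      (𝓝 (s.μ (⋂ M : ℕ, {x : Fin d → ℝ | (M : ℝ) < ‖x‖}))) := by
    apply tendsto_measure_iInter_atTop
    · intro M
      exact (isOpen_lt continuous_const continuous_norm).measurableSet.nullMeasurableSet
    · intro M M' h x hx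
      simp only [Set.mem_ofPred_eq] at hx ⊢
      have : (M : ℝ) ≤ M' := by exact_mod_cast h
      linarith
    · exact ⟨0, measure_ne_top _ _⟩
  have h2 : (⋂ M : ℕ, {x : Fin d → ℝ | (M : ℝ) < ‖x‖}) = ∅ := by
    ext x
    simp only [Set.mem_iInter, Set.mem_ofPred_eq, Set.mem_empty_iff_false, iff_false, not_forall,
      not_lt]
    exact exists_nat_ge ‖x‖
  rw [h2, measure_empty] at h1
  exact le_antisymm (ge_of_tendsto' h1 fun M => s.mu_far_le ε hε M) bot_le

lemma mu_compl : s.μ s.Tᶜ = 0 := by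
  have h1 : s.Tᶜ ⊆ ⋃ n : ℕ, {x | 1 / ((n : ℝ) + 1) < Metric.infDist x s.T} := by
    intro x hx
    have h2 : 0 < Metric.infDist x s.T :=
      (s.hTc.isClosed.notMem_iff_infDist_pos s.hTn).1 hx
    obtain ⟨n, hn⟩ := exists_nat_one_div_lt h2
    exact Set.mem_iUnion.2 ⟨n, hn⟩
  refine measure_mono_null h1 ?_
  rw [measure_iUnion_null_iff]
  intro n
  exact s.mu_far _ (by positivity)

lemma mu_T : s.μ s.T = 1 := by
  have hprob := s.hp
  exact (prob_compl_eq_zero_iff s.hTc.measurableSet).1 s.mu_compl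

lemma mu_null_of_disjoint (S : Set (Fin d → ℝ)) (h : S ∩ s.T = ∅) : s.μ S = 0 := by
  refine measure_mono_null ?_ s.mu_compl
  intro x hx hxT
  have : x ∈ S ∩ s.T := ⟨hx, hxT⟩
  rw [h] at this
  exact this

lemma T_bdd : ∃ C : ℝ, 0 < C ∧ ∀ x ∈ s.T, ‖x‖ ≤ C := by
  obtain ⟨C, hC⟩ := s.hTc.isBounded.exists_norm_le
  exact ⟨max C 1, by positivity, fun x hx => (hC x hx).trans (le_max_left _ _)⟩

lemma mu_pos_of_isOpen (U : Set (Fin d → ℝ)) (hU : IsOpen U) (x0 : Fin d → ℝ) (hx0 : x0 ∈ s.T)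
    (hxU : x0 ∈ U) : 0 < s.μ U := by
  obtain ⟨r, hr, hball⟩ := Metric.isOpen_iff.1 hU x0 hxU
  obtain ⟨C, hC, hCT⟩ := s.T_bdd
  obtain ⟨n, hn⟩ := (s.contrA (r / (4 * C)) (by positivity)).exists
  obtain ⟨w, hw, y, hy, hwy⟩ := s.exists_word n x0 hx0
  rw [s.iter n _ hU.measurableSet]
  have h1 : s.T ⊆ s.P w ⁻¹' U := by
    intro z hz
    apply hball
    rw [Metric.mem_ball, ← hwy, dist_eq_norm, s.P_sub]
    rw [mem_Words] at hw
    rw [hw.1]
    have h2 := hn (z - y)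
    have h3 : ‖z - y‖ ≤ 2 * C := by
      have := norm_sub_le z y
      have := hCT z hz
      have := hCT y hy
      linarith
    have h4 : r / (4 * C) * ‖z - y‖ ≤ r / 2 := by
      calc r / (4 * C) * ‖z - y‖ ≤ r / (4 * C) * (2 * C) := by gcongr
        _ = r / 2 := by field_simp; ring
    linarith
  have h2 : 0 < s.q ^ n * s.μ (s.P w ⁻¹' U) := by
    have h3 : 1 ≤ s.μ (s.P w ⁻¹' U) := by
      rw [← s.mu_T]
      exact measure_mono h1
    have h4 : 0 < s.q ^ n := by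
      apply ENNReal.pow_pos
      exact pos_iff_ne_zero.2 s.q_ne_zero
    exact ENNReal.mul_pos h4.ne' (lt_of_lt_of_le zero_lt_one h3).ne'
  exact lt_of_lt_of_le h2 (Finset.single_le_sum
    (f := fun w => s.q ^ n * s.μ (s.P w ⁻¹' U)) (fun _ _ => bot_le) hw)

/-- extreme word -/
lemma exists_extreme (n : ℕ) (f : Module.Dual ℝ (Fin d → ℝ))
    (hgen : ∀ j < n, ∀ b ∈ s.B, ∀ b' ∈ s.B, b ≠ b' →
      f ((s.A ^ (j + 1)) *ᵥ (cst b - cst b')) ≠ 0) :
    ∃ w0 ∈ Words s.B n, ∀ w ∈ Words s.B n, w ≠ w0 →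
      f ((s.A ^ n) *ᵥ cst (Dig s.R w)) < f ((s.A ^ n) *ᵥ cst (Dig s.R w0)) := by
  induction n generalizing f with
  | zero =>
    refine ⟨[], by simp [Words], ?_⟩
    intro w hw hne
    simp [Words] at hw
    exact absurd hw hne
  | succ n ih =>
    let f' : Module.Dual ℝ (Fin d → ℝ) := f ∘ₗ (s.A.mulVecLin)
    have hf' : ∀ x, f' x = f (s.A *ᵥ x) := fun x => rfl
    obtain ⟨w0, hw0, hmax⟩ := ih f' (by
      intro j hj b hb b' hb' hne
      rw [hf', Matrix.mulVec_mulVec, ← pow_succ']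
      exact hgen (j + 1) (by omega) b hb b' hb' hne)
    obtain ⟨b0, hb0, hbmax⟩ := s.B.exists_max_image (fun b => f (s.A *ᵥ cst b)) s.B_nonempty
    have hbmax' : ∀ b ∈ s.B, b ≠ b0 → f (s.A *ᵥ cst b) < f (s.A *ᵥ cst b0) := by
      intro b hb hne
      refine lt_of_le_of_ne (hbmax b hb) ?_
      intro heq
      have := hgen 0 (by omega) b hb b0 hb0 hne
      apply this
      rw [zero_add, pow_one, Matrix.mulVec_sub, map_sub, heq, sub_self]
    have key : ∀ b v, v ∈ Words s.B n → (s.A ^ (n + 1)) *ᵥ cst (Dig s.R (b :: v)) =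
        s.A *ᵥ ((s.A ^ n) *ᵥ cst (Dig s.R v)) + s.A *ᵥ cst b := by
      intro b v hv
      rw [mem_Words] at hv
      have h1 := inv_pow_mul_pow s.R s.hdet n
      simp only [Dig, cst_add, cst_mulVec, Matrix.mulVec_add, hv.1]
      congr 1
      · rw [Matrix.mulVec_mulVec, ← pow_succ']
      · rw [Matrix.mulVec_mulVec, pow_succ', mul_assoc]
        unfold A
        rw [h1, mul_one]
    refine ⟨b0 :: w0, ?_, ?_⟩
    · rw [mem_Words] at hw0 ⊢
      refine ⟨by simp [hw0.1], ?_⟩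
      intro c hc
      rcases List.mem_cons.1 hc with rfl | hc
      · exact hb0
      · exact hw0.2 c hc
    · intro w hw hne
      have hw' := hw
      rw [mem_Words] at hw
      cases w with
      | nil => simp at hw
      | cons b v =>
        have hv : v ∈ Words s.B n := by
          rw [mem_Words]
          exact ⟨by simpa using hw.1, fun c hc => hw.2 c (by simp [hc])⟩
        have hb : b ∈ s.B := hw.2 b (by simp)
        rw [key b v hv, key b0 w0 hw0, map_add, map_add]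
        have e1 : ∀ v, f (s.A *ᵥ ((s.A ^ n) *ᵥ cst (Dig s.R v))) =
          f' ((s.A ^ n) *ᵥ cst (Dig s.R v)) := fun v => rfl
        rw [e1, e1]
        by_cases hbb : b = b0
        · subst hbb
          have hvv : v ≠ w0 := fun h => hne (by rw [h])
          have := hmax v hv hvv
          linarith
        · have h1 := hbmax' b hb hbb
          by_cases hvv : v = w0
          · subst hvv
            linarith
          · have := hmax v hv hvv
            linarith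

lemma exists_generic (n : ℕ) : ∃ f : Module.Dual ℝ (Fin d → ℝ),
    ∀ j < n, ∀ b ∈ s.B, ∀ b' ∈ s.B, b ≠ b' →
      f ((s.A ^ (j + 1)) *ᵥ (cst b - cst b')) ≠ 0 := by
  let ι := Fin n × {p : s.B × s.B // p.1 ≠ p.2}
  let v : ι → (Fin d → ℝ) := fun i =>
    (s.A ^ ((i.1 : ℕ) + 1)) *ᵥ (cst ((i.2.1.1 : s.B) : Fin d → ℤ) - cst ((i.2.1.2 : s.B) : Fin d → ℤ))
  have hv : ∀ i, v i ≠ 0 := by
    rintro ⟨j, ⟨⟨b, b'⟩, hne⟩⟩ h0
    have hne' : (b : Fin d → ℤ) ≠ b' := fun h => hne (Subtype.ext h)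
    have h1 : (s.A ^ ((j : ℕ) + 1)) *ᵥ (cst (b : Fin d → ℤ) - cst (b' : Fin d → ℤ)) = 0 := h0
    have h2 : ((s.R.map (Int.castRingHom ℝ)) ^ ((j : ℕ) + 1)) * (s.A ^ ((j : ℕ) + 1)) = 1 := by
      have hc : Commute (s.R.map (Int.castRingHom ℝ)) s.A := by
        unfold Commute SemiconjBy A
        rw [Matrix.nonsing_inv_mul _ (isUnit_real_det s.R s.hdet),
          Matrix.mul_nonsing_inv _ (isUnit_real_det s.R s.hdet)]
      rw [← hc.mul_pow]
      unfold A
      rw [Matrix.mul_nonsing_inv _ (isUnit_real_det s.R s.hdet), one_pow]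
    have h3 : cst (b : Fin d → ℤ) - cst (b' : Fin d → ℤ) = 0 := by
      have := congrArg (fun x => ((s.R.map (Int.castRingHom ℝ)) ^ ((j : ℕ) + 1)) *ᵥ x) h1
      simp only [Matrix.mulVec_mulVec, h2, Matrix.one_mulVec, Matrix.mulVec_zero] at this
      exact this
    exact hne' (cst_injective (sub_eq_zero.1 h3))
  obtain ⟨f, hf⟩ := Module.exists_dual_forall_apply_ne_zero (K := ℝ) v hv
  refine ⟨f, fun j hj b hb b' hb' hne => ?_⟩
  exact hf (⟨j, hj⟩, ⟨(⟨b, hb⟩, ⟨b', hb'⟩), fun h => hne (congrArg Subtype.val h)⟩)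

/-- the spectral hypothesis -/
def Spectral (μ : Measure (Fin d → ℝ)) : Prop :=
  ∃ (Λ : Set (Fin d → ℝ)) (e : Λ → Lp ℂ 2 μ),
    (∀ l : Λ, (e l : (Fin d → ℝ) → ℂ) =ᵐ[μ] ex (l : Fin d → ℝ)) ∧ Orthonormal ℂ e ∧
      (Submodule.span ℂ (Set.range e)).topologicalClosure = ⊤

/-- no exact overlaps -/
lemma Dig_inj (hs : Spectral s.μ) (n : ℕ) (u u' : List (Fin d → ℤ)) (hu : u ∈ Words s.B n)
    (hu' : u' ∈ Words s.B n) (h : Dig s.R u = Dig s.R u') : u = u' := by
  by_contra hne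
  have hprob := s.hp
  obtain ⟨f, hf⟩ := s.exists_generic n
  obtain ⟨w0, hw0, hmax⟩ := s.exists_extreme n f hf
  have hfc : Continuous f := f.continuous_of_finiteDimensional
  -- the maximum over T
  obtain ⟨x0, hx0, hx0max⟩ := s.hTc.exists_isMaxOn s.hTn
    (f := fun x => f ((s.A ^ n) *ᵥ x))
    (hfc.comp (Continuous.matrix_mulVec continuous_const continuous_id)).continuousOn
  set hh : ℝ := f ((s.A ^ n) *ᵥ x0) with hhdef
  have hxmax : ∀ x ∈ s.T, f ((s.A ^ n) *ᵥ x) ≤ hh := fun x hx => hx0max hx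
  set g : List (Fin d → ℤ) → ℝ := fun w => f ((s.A ^ n) *ᵥ cst (Dig s.R w)) with hg
  have hfP : ∀ w ∈ Words s.B n, ∀ x, f (s.P w x) = f ((s.A ^ n) *ᵥ x) + g w := by
    intro w hw x
    rw [mem_Words] at hw
    rw [s.P_eq, hw.1, Matrix.mulVec_add, map_add]
  set U : Set (Fin d → ℝ) := ⋂ w ∈ (Words s.B n).erase w0, {y | hh + g w < f y} with hUdef
  have hUo : IsOpen U := by
    apply isOpen_biInter_finset
    intro w _
    exact isOpen_lt continuous_const hfc
  have hy0T : s.P w0 x0 ∈ s.T := s.P_mem w0 ((mem_Words _ _ _).1 hw0).2 x0 hx0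
  have hy0U : s.P w0 x0 ∈ U := by
    rw [hUdef]
    simp only [Set.mem_iInter, Set.mem_ofPred_eq]
    intro w hw
    rw [hfP w0 hw0]
    have := hmax w (Finset.mem_of_mem_erase hw) (Finset.ne_of_mem_erase hw)
    simp only [hg]
    linarith
  have hUpos : 0 < s.μ U := s.mu_pos_of_isOpen U hUo _ hy0T hy0U
  have hzero : ∀ w ∈ Words s.B n, w ≠ w0 → s.μ (s.P w ⁻¹' U) = 0 := by
    intro w hw hne
    apply s.mu_null_of_disjoint
    ext x
    simp only [Set.mem_inter_iff, Set.mem_preimage, Set.mem_empty_iff_false, iff_false, not_and]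
    intro hxU hxT
    rw [hUdef] at hxU
    simp only [Set.mem_iInter, Set.mem_ofPred_eq] at hxU
    have h1 := hxU w (Finset.mem_erase.2 ⟨hne, hw⟩)
    rw [hfP w hw] at h1
    have := hxmax x hxT
    linarith
  -- translation
  set a : Fin d → ℝ := (s.A ^ n) *ᵥ (cst (Dig s.R u) - cst (Dig s.R w0)) with ha
  have hPu : ∀ x, s.P w0 x + a = s.P u x := by
    intro x
    rw [s.P_eq, s.P_eq, ((mem_Words _ _ _).1 hw0).1, ((mem_Words _ _ _).1 hu).1, ha,
      ← Matrix.mulVec_add]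
    congr 1
    abel
  have hPu' : s.P u' = s.P u := by
    ext1 x
    rw [s.P_eq, s.P_eq, ((mem_Words _ _ _).1 hu').1, ((mem_Words _ _ _).1 hu).1, h]
  obtain ⟨Λ, e, he, ho, hsp⟩ := hs
  have hU0 : s.μ U = 0 := by
    refine spectral_uniform s.μ Λ e he ho hsp U hUo.measurableSet a ?_
    intro S hS
    have hm1 : MeasurableSet ((fun x => x + a) ⁻¹' S ∩ U) :=
      (measurable_add_const a hS).inter hUo.measurableSet
    have h1 : s.μ ((fun x => x + a) ⁻¹' S ∩ U) ≤ s.q ^ n * s.μ (s.P u ⁻¹' S) := by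
      rw [s.iter n _ hm1]
      rw [Finset.sum_eq_single w0]
      · gcongr
        intro x hx
        simp only [Set.mem_preimage, Set.mem_inter_iff] at hx ⊢
        rw [← hPu x]
        exact hx.1
      · intro w hw hne
        have : s.μ (s.P w ⁻¹' ((fun x => x + a) ⁻¹' S ∩ U)) = 0 :=
          measure_mono_null (Set.preimage_mono Set.inter_subset_right) (hzero w hw hne)
        rw [this, mul_zero]
      · intro h
        exact absurd hw0 h
    have h2 : 2 * (s.q ^ n * s.μ (s.P u ⁻¹' S)) ≤ s.μ S := by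
      rw [s.iter n S hS]
      have h3 : ({u, u'} : Finset (List (Fin d → ℤ))) ⊆ Words s.B n := by
        intro w hw
        simp only [Finset.mem_insert, Finset.mem_singleton] at hw
        rcases hw with rfl | rfl
        · exact hu
        · exact hu'
      calc 2 * (s.q ^ n * s.μ (s.P u ⁻¹' S))
          = ∑ w ∈ ({u, u'} : Finset (List (Fin d → ℤ))), s.q ^ n * s.μ (s.P w ⁻¹' S) := by
            rw [Finset.sum_pair hne, hPu', two_mul]
        _ ≤ _ := Finset.sum_le_sum_of_subset h3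
    calc s.μ ((fun x => x + a) ⁻¹' S ∩ U) ≤ s.q ^ n * s.μ (s.P u ⁻¹' S) := h1
      _ = (2 : ENNReal)⁻¹ * (2 * (s.q ^ n * s.μ (s.P u ⁻¹' S))) := by
          rw [← mul_assoc, ENNReal.inv_mul_cancel (by norm_num) (by norm_num), one_mul]
      _ ≤ (2 : ENNReal)⁻¹ * s.μ S := by gcongr
  exact hUpos.ne' hU0

/-- integer vectors in `T - T` -/
def NbSet : Set (Fin d → ℤ) := {k | ∃ x ∈ s.T, ∃ y ∈ s.T, x + cst k = y}

lemma NbSet_finite : (s.NbSet).Finite := by
  obtain ⟨C, hC, hCT⟩ := s.T_bdd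
  refine (Set.finite_Icc (fun _ : Fin d => -⌈2 * C⌉) (fun _ => ⌈2 * C⌉)).subset ?_
  rintro k ⟨x, hx, y, hy, h⟩
  have h1 : ∀ i, |(k i : ℝ)| ≤ 2 * C := by
    intro i
    have h2 : (k i : ℝ) = y i - x i := by
      have := congrFun h i
      simp only [Pi.add_apply, cst] at this
      linarith
    have h3 : |y i| ≤ C := (norm_le_pi_norm y i).trans (hCT y hy)
    have h4 : |x i| ≤ C := (norm_le_pi_norm x i).trans (hCT x hx)
    rw [h2]
    have := abs_sub (y i) (x i)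
    linarith
  rw [Set.mem_Icc]
  constructor
  · intro i
    have h2 := (abs_le.1 (h1 i)).1
    have h3 := Int.le_ceil (2 * C)
    have : (-(⌈2 * C⌉ : ℝ)) ≤ k i := by linarith
    exact_mod_cast this
  · intro i
    have h2 := (abs_le.1 (h1 i)).2
    have h3 := Int.le_ceil (2 * C)
    have : (k i : ℝ) ≤ (⌈2 * C⌉ : ℝ) := by linarith
    exact_mod_cast this

open Classical in
/-- neighbours of a word -/
noncomputable def Nb (w : List (Fin d → ℤ)) : Finset (Fin d → ℤ) :=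
  s.NbSet_finite.toFinset.filter
    (fun k => ∃ w' ∈ Words s.B w.length, Dig s.R w' - Dig s.R w = k)

lemma mem_Nb (w : List (Fin d → ℤ)) (k : Fin d → ℤ) :
    k ∈ s.Nb w ↔ k ∈ s.NbSet ∧ ∃ w' ∈ Words s.B w.length, Dig s.R w' - Dig s.R w = k := by
  unfold Nb
  simp only [Finset.mem_filter, Set.Finite.mem_toFinset]

lemma exists_max_Nb : ∃ w0 : List (Fin d → ℤ), (∀ b ∈ w0, b ∈ s.B) ∧
    ∀ w : List (Fin d → ℤ), (∀ b ∈ w, b ∈ s.B) → (s.Nb w).card ≤ (s.Nb w0).card := by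
  let S : Set ℕ := {m | ∃ w : List (Fin d → ℤ), (∀ b ∈ w, b ∈ s.B) ∧ (s.Nb w).card = m}
  have hne : S.Nonempty := ⟨_, [], by simp, rfl⟩
  have hbdd : BddAbove S := by
    refine ⟨s.NbSet_finite.toFinset.card, ?_⟩
    rintro m ⟨w, _, rfl⟩
    exact Finset.card_le_card (Finset.filter_subset _ _)
  obtain ⟨w0, hw0, h0⟩ := Nat.sSup_mem hne hbdd
  refine ⟨w0, hw0, fun w hw => ?_⟩
  rw [h0]
  exact le_csSup hbdd ⟨w, hw, rfl⟩

lemma Nb_append (u w0 : List (Fin d → ℤ)) (hu : ∀ b ∈ u, b ∈ s.B) :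
    s.Nb w0 ⊆ s.Nb (u ++ w0) := by
  intro k hk
  rw [mem_Nb] at hk ⊢
  obtain ⟨h1, w', hw', h2⟩ := hk
  refine ⟨h1, u ++ w', ?_, ?_⟩
  · rw [mem_Words] at hw' ⊢
    refine ⟨by simp [hw'.1], ?_⟩
    intro b hb
    rcases List.mem_append.1 hb with hb | hb
    · exact hu b hb
    · exact hw'.2 b hb
  · rw [mem_Words] at hw'
    rw [Dig_append, Dig_append, hw'.1, ← h2]
    abel

/-- separation -/
lemma separated (hs : Spectral s.μ) : ∃ w0 : List (Fin d → ℤ), (∀ b ∈ w0, b ∈ s.B) ∧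
    ∀ b b' : Fin d → ℤ, b ≠ b' → b' ∈ s.B → ∀ u : List (Fin d → ℤ), (∀ c ∈ u, c ∈ s.B) →
      b ∈ s.B → ∀ x ∈ s.T, s.P (b :: u ++ w0) x ∉ s.φ b' '' s.T := by
  obtain ⟨w0, hw0, hmax⟩ := s.exists_max_Nb
  refine ⟨w0, hw0, ?_⟩
  intro b b' hne hb' u hu hb x hx hmem
  have hbu : ∀ c ∈ b :: u, c ∈ s.B := by
    intro c hc
    rcases List.mem_cons.1 hc with rfl | hc
    · exact hb
    · exact hu c hc
  have hfull : ∀ c ∈ b :: u ++ w0, c ∈ s.B := by
    intro c hc
    rcases List.mem_append.1 hc with hc | hc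
    · exact hbu c hc
    · exact hw0 c hc
  have heq : s.Nb w0 = s.Nb (b :: u ++ w0) :=
    Finset.eq_of_subset_of_card_le (s.Nb_append (b :: u) w0 hbu) (hmax _ hfull)
  obtain ⟨y, hy, hyx⟩ := hmem
  obtain ⟨v, hv, z, hz, hzy⟩ := s.exists_word (u.length + w0.length) y hy
  -- `v' = b' :: v`
  have hv' : b' :: v ∈ Words s.B (b :: u ++ w0).length := by
    rw [mem_Words] at hv ⊢
    refine ⟨by simp [hv.1], ?_⟩
    intro c hc
    rcases List.mem_cons.1 hc with rfl | hc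
    · exact hb'
    · exact hv.2 c hc
  have h1 : s.P (b' :: v) z = s.P (b :: u ++ w0) x := by
    rw [P_cons, Function.comp, hzy, hyx]
  have hlen : (b' :: v).length = (b :: u ++ w0).length := ((mem_Words _ _ _).1 hv').1
  have h2 : z + cst (Dig s.R (b' :: v)) = x + cst (Dig s.R (b :: u ++ w0)) := by
    rw [s.P_eq, s.P_eq, hlen] at h1
    have hc : ((s.R.map (Int.castRingHom ℝ)) ^ ((b :: u ++ w0).length)) *
        (s.A ^ ((b :: u ++ w0).length)) = 1 := by
      have hc : Commute (s.R.map (Int.castRingHom ℝ)) s.A := by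
        unfold Commute SemiconjBy A
        rw [Matrix.nonsing_inv_mul _ (isUnit_real_det s.R s.hdet),
          Matrix.mul_nonsing_inv _ (isUnit_real_det s.R s.hdet)]
      rw [← hc.mul_pow]
      unfold A
      rw [Matrix.mul_nonsing_inv _ (isUnit_real_det s.R s.hdet), one_pow]
    have := congrArg (fun x => ((s.R.map (Int.castRingHom ℝ)) ^ ((b :: u ++ w0).length)) *ᵥ x) h1
    simp only [Matrix.mulVec_mulVec, hc, Matrix.one_mulVec] at this
    exact this
  set k : Fin d → ℤ := Dig s.R (b' :: v) - Dig s.R (b :: u ++ w0) with hk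
  have hkNb : k ∈ s.Nb (b :: u ++ w0) := by
    rw [mem_Nb]
    refine ⟨⟨z, hz, x, hx, ?_⟩, b' :: v, hv', rfl⟩
    rw [hk, cst_sub, ← add_sub_assoc, h2]
    abel
  rw [← heq, mem_Nb] at hkNb
  obtain ⟨_, w', hw', hkw'⟩ := hkNb
  have h3 : Dig s.R (b :: u ++ w') = Dig s.R (b' :: v) := by
    have e1 : Dig s.R (b :: u ++ w') = Dig s.R w' + (s.R ^ w'.length) *ᵥ Dig s.R (b :: u) :=
      Dig_append s.R (b :: u) w'
    have e2 : Dig s.R (b :: u ++ w0) = Dig s.R w0 + (s.R ^ w0.length) *ᵥ Dig s.R (b :: u) :=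
      Dig_append s.R (b :: u) w0
    have e3 : w'.length = w0.length := ((mem_Words _ _ _).1 hw').1
    rw [e1, e3]
    have e4 : Dig s.R w' = k + Dig s.R w0 := by rw [← hkw']; abel
    rw [e4, hk, e2]
    abel
  have h4 : b :: u ++ w' ∈ Words s.B (b :: u ++ w0).length := by
    rw [mem_Words] at hw' ⊢
    refine ⟨by simp [hw'.1], ?_⟩
    intro c hc
    rcases List.mem_append.1 hc with hc | hc
    · exact hbu c hc
    · exact hw'.2 c hc
  have h5 := s.Dig_inj hs _ _ _ h4 hv' h3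
  simp only [List.cons_append, List.cons.injEq] at h5
  exact hne h5.1

/-- measure separation -/
lemma mu_sep (hs : Spectral s.μ) (b b' : Fin d → ℤ) (hne : b ≠ b') (hb : b ∈ s.B)
    (hb' : b' ∈ s.B) : s.μ (s.φ b ⁻¹' (s.φ b' '' s.T)) = 0 := by
  have hprob := s.hp
  obtain ⟨w0, hw0, hsep⟩ := s.separated hs
  set E : Set (Fin d → ℝ) := s.φ b' '' s.T with hE
  have hEc : IsCompact E := s.hTc.image (s.continuous_φ b')
  have hEm : MeasurableSet E := hEc.measurableSet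
  set n := w0.length with hn
  have hw0' : w0 ∈ Words s.B n := by
    rw [mem_Words]
    exact ⟨rfl, hw0⟩
  -- sup over words
  let β : ENNReal := ⨆ u : {u : List (Fin d → ℤ) // ∀ c ∈ u, c ∈ s.B},
    s.μ (s.P (b :: u.1) ⁻¹' E)
  have hβ1 : β ≤ 1 := iSup_le fun u => prob_le_one
  have hstep : ∀ u : {u : List (Fin d → ℤ) // ∀ c ∈ u, c ∈ s.B},
      s.μ (s.P (b :: u.1) ⁻¹' E) ≤ ((s.B.card ^ n - 1 : ℕ) : ENNReal) * s.q ^ n * β := by
    rintro ⟨u, hu⟩
    have hm : MeasurableSet (s.P (b :: u) ⁻¹' E) := s.measurable_P _ hEm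
    rw [s.iter n _ hm]
    have h0 : s.μ (s.P w0 ⁻¹' (s.P (b :: u) ⁻¹' E)) = 0 := by
      apply s.mu_null_of_disjoint
      ext x
      simp only [Set.mem_inter_iff, Set.mem_preimage, Set.mem_empty_iff_false, iff_false, not_and]
      intro h1 hxT
      apply hsep b b' hne hb' u hu hb x hxT
      rw [s.P_append]
      exact h1
    rw [← Finset.add_sum_erase _ _ hw0', h0, mul_zero, zero_add]
    calc ∑ w ∈ (Words s.B n).erase w0, s.q ^ n * s.μ (s.P w ⁻¹' (s.P (b :: u) ⁻¹' E))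
        ≤ ∑ w ∈ (Words s.B n).erase w0, s.q ^ n * β := by
          refine Finset.sum_le_sum fun w hw => ?_
          have hw' : ∀ c ∈ w, c ∈ s.B :=
            ((mem_Words _ _ _).1 (Finset.mem_of_mem_erase hw)).2
          have huw : ∀ c ∈ u ++ w, c ∈ s.B := by
            intro c hc
            rcases List.mem_append.1 hc with hc | hc
            · exact hu c hc
            · exact hw' c hc
          have : s.μ (s.P w ⁻¹' (s.P (b :: u) ⁻¹' E)) ≤ β := by
            have e : s.P w ⁻¹' (s.P (b :: u) ⁻¹' E) = s.P (b :: (u ++ w)) ⁻¹' E := by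
              rw [← List.cons_append, s.P_append, Set.preimage_comp]
            rw [e]
            exact le_iSup (fun u : {u : List (Fin d → ℤ) // ∀ c ∈ u, c ∈ s.B} =>
              s.μ (s.P (b :: u.1) ⁻¹' E)) ⟨u ++ w, huw⟩
          gcongr
      _ = ((s.B.card ^ n - 1 : ℕ) : ENNReal) * s.q ^ n * β := by
          rw [Finset.sum_const, Finset.card_erase_of_mem hw0', card_Words, nsmul_eq_mul, mul_assoc]
  have hβ2 : β ≤ ((s.B.card ^ n - 1 : ℕ) : ENNReal) * s.q ^ n * β := iSup_le hstep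
  have hβ0 : β = 0 := by
    by_contra hpos
    have hβt : β ≠ ⊤ := ne_top_of_le_ne_top ENNReal.one_ne_top hβ1
    have hlt : ((s.B.card ^ n - 1 : ℕ) : ENNReal) * s.q ^ n < 1 := by
      rw [← s.q_pow_mul n, mul_comm (s.q ^ n)]
      have hq0 : s.q ^ n ≠ 0 := pow_ne_zero _ s.q_ne_zero
      have hqt : s.q ^ n ≠ ⊤ := ENNReal.pow_ne_top s.q_ne_top
      refine (ENNReal.mul_lt_mul_iff_left hq0 hqt).2 ?_
      have : s.B.card ^ n - 1 < s.B.card ^ n := by
        have := pow_pos s.card_pos n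
        omega
      exact_mod_cast this
    have : ((s.B.card ^ n - 1 : ℕ) : ENNReal) * s.q ^ n * β < 1 * β :=
      (ENNReal.mul_lt_mul_iff_left hpos hβt).2 hlt
    rw [one_mul] at this
    exact absurd hβ2 (not_le.2 this)
  have h1 : s.μ (s.P (b :: []) ⁻¹' E) ≤ β :=
    le_iSup (fun u : {u : List (Fin d → ℤ) // ∀ c ∈ u, c ∈ s.B} =>
              s.μ (s.P (b :: u.1) ⁻¹' E)) ⟨[], by simp⟩
  rw [hβ0] at h1
  have h2 : s.P (b :: []) = s.φ b := rfl
  rw [h2] at h1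
  exact le_antisymm h1 bot_le

theorem no_overlap (hs : Spectral s.μ) (b b' : Fin d → ℤ) (hb : b ∈ s.B) (hb' : b' ∈ s.B)
    (hne : b ≠ b') : s.μ (s.φ b '' s.T ∩ s.φ b' '' s.T) = 0 := by
  have hm : MeasurableSet (s.φ b '' s.T ∩ s.φ b' '' s.T) :=
    ((s.hTc.image (s.continuous_φ b)).measurableSet).inter
      (s.hTc.image (s.continuous_φ b')).measurableSet
  rw [s.iter 1 _ hm]
  apply Finset.sum_eq_zero
  intro w hw
  rw [mem_Words] at hw
  obtain ⟨c, rfl⟩ := List.length_eq_one_iff.1 hw.1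
  have hc : c ∈ s.B := hw.2 c (by simp)
  have e : s.P [c] = s.φ c := rfl
  rw [e]
  have h0 : s.μ (s.φ c ⁻¹' (s.φ b '' s.T ∩ s.φ b' '' s.T)) = 0 := by
    by_cases hcb : c = b
    · subst hcb
      exact measure_mono_null (Set.preimage_mono Set.inter_subset_right)
        (s.mu_sep hs c b' hne hc hb')
    · exact measure_mono_null (Set.preimage_mono Set.inter_subset_left)
        (s.mu_sep hs c b hcb hc hb)
  rw [h0, mul_zero]

end Sys

end Pool.Agent.Lib.Pbc76ba
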